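import Mathlib

/-! # Polytope moves: closedness of hull membership, continuity of the volume -/

namespace Pool.Agent.R176.PM

open Set Filter Topology MeasureTheory

variable {E : Type*} [NormedAddCommGroup E] [InnerProductSpace ℝ E] [FiniteDimensional ℝ E]

omit [FiniteDimensional ℝ E] in
/-- membership in the hull of a finite family through weights -/
theorem mem_hull_range {ι : Type*} [Fintype ι] (x : ι → E) (p : E) :
    p ∈ convexHull ℝ (range x) ↔ ∃ w ∈ stdSimplex ℝ ι, ∑ i, w i • x i = p := by
  classical
  constructor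
  · intro h
    have h1 : convexHull ℝ (range x) =
        (fun w : ι → ℝ => ∑ i, w i • x i) '' stdSimplex ℝ ι := by
      have h2 : (fun w : ι → ℝ => ∑ i, w i • x i) =
          ⇑(∑ i : ι, (LinearMap.proj (R := ℝ) (φ := fun _ : ι => ℝ) i).smulRight (x i)) := by
        ext w
        simp
      rw [h2, ← convexHull_basis_eq_stdSimplex, LinearMap.image_convexHull, ← Set.range_comp]
      apply congr_arg
      ext y
      simp
    rw [h1] at h
    obtain ⟨w, hw, h⟩ := h
    exact ⟨w, hw, h⟩
  · rintro ⟨w, hw, rfl⟩
    exact (convex_convexHull ℝ _).sum_mem (fun i _ => hw.1 i) hw.2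
      (fun i _ => subset_convexHull ℝ _ (mem_range_self i))

omit [FiniteDimensional ℝ E] in
theorem isClosed_mem_hull {ι : Type*} [Fintype ι] :
    IsClosed {q : (ι → E) × E | q.2 ∈ convexHull ℝ (range q.1)} := by
  have h1 : {q : (ι → E) × E | q.2 ∈ convexHull ℝ (range q.1)} =
      Prod.snd '' {z : (stdSimplex ℝ ι) × ((ι → E) × E) |
        ∑ i, (z.1 : ι → ℝ) i • z.2.1 i = z.2.2} := by
    ext q
    simp only [mem_ofPred_eq, mem_hull_range, mem_image, Prod.exists, Subtype.exists]
    constructor
    · rintro ⟨w, hw, h⟩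
      exact ⟨w, hw, q.1, q.2, h, rfl⟩
    · rintro ⟨w, hw, a, b, h, rfl⟩
      exact ⟨w, hw, h⟩
  rw [h1]
  have : CompactSpace (stdSimplex ℝ ι) := isCompact_iff_compactSpace.1 (isCompact_stdSimplex ℝ ι)
  apply isClosedMap_snd_of_compactSpace
  apply isClosed_eq
  · exact continuous_finsetSum _ fun i _ =>
      ((continuous_apply i).comp (continuous_subtype_val.comp continuous_fst)).smul
        ((continuous_apply i).comp (continuous_fst.comp continuous_snd))
  · fun_prop

omit [FiniteDimensional ℝ E] in
theorem isCompact_hull_range {ι : Type*} [Finite ι] (x : ι → E) :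
    IsCompact (convexHull ℝ (range x)) :=
  (finite_range x).isCompact_convexHull (𝕜 := ℝ)

/-- stability of interior points of the hull under perturbation of the family -/
theorem eventually_mem_hull {ι : Type*} [Fintype ι] (x : ι → E) (p : E)
    (hp : p ∈ interior (convexHull ℝ (range x))) :
    ∀ᶠ y in 𝓝 x, p ∈ convexHull ℝ (range y) := by
  obtain ⟨δ, hδ, hball⟩ := Metric.isOpen_iff.1 isOpen_interior p hp
  have hball' : Metric.ball p δ ⊆ convexHull ℝ (range x) := hball.trans interior_subset
  filter_upwards [Metric.ball_mem_nhds x (half_pos hδ)] with y hy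
  by_contra hcon
  obtain ⟨f, u, hfp, hfu⟩ := geometric_hahn_banach_point_closed (convex_convexHull ℝ (range y))
    (isCompact_hull_range y).isClosed hcon
  set a : E := (InnerProductSpace.toDual ℝ E).symm f with ha
  have hfa : ∀ z, f z = inner ℝ a z := fun z => by
    rw [ha, InnerProductSpace.toDual_symm_apply]
  have hx_ne : (range x).Nonempty := by
    rw [← convexHull_nonempty_iff (𝕜 := ℝ)]
    exact ⟨p, interior_subset hp⟩
  obtain ⟨_, ⟨i0, rfl⟩⟩ := hx_ne
  have hane : 0 < ‖a‖ := by
    rw [norm_pos_iff]
    intro h0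
    have h1 := hfu (y i0) (subset_convexHull ℝ _ (mem_range_self i0))
    rw [hfa, h0, inner_zero_left] at h1
    rw [hfa, h0, inner_zero_left] at hfp
    linarith
  set e : E := -((3 * δ / 4) / ‖a‖) • a with he
  have hen : ‖e‖ = 3 * δ / 4 := by
    rw [he, norm_smul, norm_neg, Real.norm_of_nonneg (by positivity)]
    field_simp
  have hmem : p + e ∈ convexHull ℝ (range x) := by
    apply hball'
    rw [mem_ball_iff_norm, add_sub_cancel_left, hen]
    linarith
  obtain ⟨w, hw, hsum⟩ := (mem_hull_range x _).1 hmem
  have h1 : f (p + e) = f p - 3 * δ / 4 * ‖a‖ := by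
    rw [map_add, hfa e, he, inner_smul_right, real_inner_self_eq_norm_sq]
    field_simp
    ring
  have h2 : f (p + e) = ∑ i, w i * f (x i) := by
    rw [← hsum, map_sum]
    exact Finset.sum_congr rfl (fun i _ => by rw [map_smul, smul_eq_mul])
  have h3 : ∀ i, u - ‖a‖ * (δ / 2) ≤ f (x i) := by
    intro i
    have h4 := hfu (y i) (subset_convexHull ℝ _ (mem_range_self i))
    have h5 : |f (x i - y i)| ≤ ‖a‖ * (δ / 2) := by
      rw [hfa]
      refine (abs_real_inner_le_norm _ _).trans ?_
      apply mul_le_mul_of_nonneg_left _ hane.le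
      have h6 : dist (y i) (x i) ≤ dist y x := dist_le_pi_dist y x i
      rw [← dist_eq_norm, dist_comm]
      exact h6.trans (Metric.mem_ball.1 hy).le
    rw [map_sub] at h5
    have := abs_le.1 h5
    linarith [this.1]
  have h7 : u - ‖a‖ * (δ / 2) ≤ ∑ i, w i * f (x i) := by
    calc u - ‖a‖ * (δ / 2) = ∑ i, w i * (u - ‖a‖ * (δ / 2)) := by
          rw [← Finset.sum_mul, hw.2, one_mul]
      _ ≤ _ := Finset.sum_le_sum (fun i _ => mul_le_mul_of_nonneg_left (h3 i) (hw.1 i))
  rw [← h2, h1] at h7
  nlinarith

variable [MeasurableSpace E] [BorelSpace E]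

/-- volume of the hull of a family -/
noncomputable def V {ι : Type*} (x : ι → E) : ℝ := (volume (convexHull ℝ (range x))).toReal

theorem continuous_V {ι : Type*} [Fintype ι] : Continuous (V : (ι → E) → ℝ) := by
  rw [continuous_iff_continuousAt]
  intro x
  have hfin : ∀ y : ι → E, volume (convexHull ℝ (range y)) ≠ ⊤ := fun y =>
    (isCompact_hull_range y).measure_lt_top.ne
  have hkey : Tendsto (fun y : ι → E => volume (convexHull ℝ (range y))) (𝓝 x)
      (𝓝 (volume (convexHull ℝ (range x)))) := by
    obtain ⟨R, hR⟩ := (isCompact_hull_range x).isBounded.subset_closedBall (0 : E)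
    apply tendsto_measure_of_ae_tendsto_indicator (𝓝 x)
      (isCompact_hull_range x).isClosed.measurableSet
      (fun y => (isCompact_hull_range y).isClosed.measurableSet)
      (B := Metric.closedBall (0 : E) (R + 1)) (Metric.isClosed_closedBall.measurableSet)
      (isCompact_closedBall _ _).measure_lt_top.ne
    · filter_upwards [Metric.ball_mem_nhds x one_pos] with y hy
      apply convexHull_min _ (convex_closedBall _ _)
      rintro _ ⟨i, rfl⟩
      have h1 : x i ∈ Metric.closedBall (0 : E) R := hR (subset_convexHull ℝ _ (mem_range_self i))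
      have h2 : dist (y i) (x i) ≤ dist y x := dist_le_pi_dist y x i
      rw [Metric.mem_closedBall] at h1 ⊢
      have h3 := dist_triangle (y i) (x i) 0
      have h4 := Metric.mem_ball.1 hy
      linarith
    · have h0 : volume (frontier (convexHull ℝ (range x))) = 0 :=
        (convex_convexHull ℝ _).addHaar_frontier volume
      have h1 : ∀ᵐ p ∂(volume : Measure E), p ∉ frontier (convexHull ℝ (range x)) := by
        rw [ae_iff]
        simpa using h0
      filter_upwards [h1] with p hp
      by_cases hpx : p ∈ convexHull ℝ (range x)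
      · have hpi : p ∈ interior (convexHull ℝ (range x)) := by
          by_contra hcon
          exact hp ⟨subset_closure hpx, hcon⟩
        filter_upwards [eventually_mem_hull x p hpi] with y hy
        exact ⟨fun _ => hpx, fun _ => hy⟩
      · have h2 : IsOpen {q : (ι → E) × E | q.2 ∈ convexHull ℝ (range q.1)}ᶜ :=
          isClosed_mem_hull.isOpen_compl
        have h3 : ∀ᶠ y : ι → E in 𝓝 x, (y, p) ∈ {q : (ι → E) × E | q.2 ∈ convexHull ℝ (range q.1)}ᶜ := by
          have hc : Continuous (fun y : ι → E => (y, p)) := by fun_prop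
          exact (h2.preimage hc).mem_nhds hpx
        filter_upwards [h3] with y hy
        exact ⟨fun h => absurd h hy, fun h => absurd h hpx⟩
  exact (ENNReal.tendsto_toReal (hfin x)).comp hkey

end Pool.Agent.R176.PM
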