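import Mathlib

/-! # Polytope moves: definitions -/

namespace Pool.Agent.R176.PM

open MeasureTheory

/-- `P` is a `d`-dimensional polytope in `ℝ^d`: the convex hull of finitely many points, with
nonempty interior. -/
def IsPolytope {d : ℕ} (P : Set (EuclideanSpace ℝ (Fin d))) : Prop :=
  (∃ S : Set (EuclideanSpace ℝ (Fin d)), S.Finite ∧ P = convexHull ℝ S) ∧ (interior P).Nonempty

/-- `x` can be inserted in `P` and the result is `Q`: `Q` is the convex hull of `P ∪ {x}` and the
vertex set of `Q` is exactly the vertex set of `P` together with `x`. -/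
def IsInsertion {d : ℕ} (P : Set (EuclideanSpace ℝ (Fin d))) (x : EuclideanSpace ℝ (Fin d))
    (Q : Set (EuclideanSpace ℝ (Fin d))) : Prop :=
  Q = convexHull ℝ (P ∪ {x}) ∧ Q.extremePoints ℝ = P.extremePoints ℝ ∪ {x}

/-- The graph `Γ_I(d)`: its vertices are the `d`-dimensional polytopes of `ℝ^d` with volume in `I`,
two different ones being adjacent when one is obtained from the other by a single insertion. -/
def moveGraph (d : ℕ) (I : Set ℝ) :
    SimpleGraph {P : Set (EuclideanSpace ℝ (Fin d)) // IsPolytope P ∧ (volume P).toReal ∈ I} where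
  Adj P Q := P ≠ Q ∧ ∃ x, IsInsertion P.1 x Q.1 ∨ IsInsertion Q.1 x P.1
  symm := ⟨fun _ _ h => ⟨h.1.symm, h.2.imp fun _ h' => h'.symm⟩⟩
  loopless := ⟨fun _ h => h.1 rfl⟩

end Pool.Agent.R176.PM
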