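import Pool.Agent.R176.PM.Norm

/-! # Polytope moves: deletions do not change the class up to scaling -/

namespace Pool.Agent.R176.PM

open Set Filter Topology MeasureTheory Function
open scoped Pointwise

set_option linter.unusedSectionVars false
set_option linter.unusedVariables false
set_option maxHeartbeats 4000000

variable {E : Type*} [NormedAddCommGroup E] [InnerProductSpace ℝ E] [FiniteDimensional ℝ E]

/-- moving the new point towards the hull keeps the old points extreme -/
theorem cf_O_move {ι : Type*} [Finite ι] {x : ι → E} {v z : E} (h : ConvexIndependent ℝ (O x v))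
    (hz : z ∈ convexHull ℝ (range x)) {t : ℝ} (ht0 : 0 ≤ t) (ht1 : t < 1)
    (hout : v + t • (z - v) ∉ convexHull ℝ (range x)) :
    ConvexIndependent ℝ (O x (v + t • (z - v))) := by
  classical
  rw [cf_iff]
  intro o
  cases o with
  | none =>
    intro hcon
    apply hout
    refine convexHull_mono ?_ hcon
    rintro _ ⟨⟨o, ho⟩, rfl⟩
    cases o with
    | none => exact absurd rfl ho
    | some k => exact ⟨k, rfl⟩
  | some j =>
    have hj := (cf_iff _).1 h (some j)
    obtain ⟨f, u, hfF, hfu⟩ := geometric_hahn_banach_closed_point (convex_convexHull ℝ _)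
      (isCompact_hull_range (fun k : {k // k ≠ some j} => O x v k)).isClosed hj
    have hfj : u < f (x j) := hfu
    have h1 : ∀ k, k ≠ j → f (x k) < f (x j) := fun k hk =>
      (hfF (x k) (subset_convexHull ℝ _ ⟨⟨some k, fun h => hk (Option.some_injective _ h)⟩, rfl⟩)).trans
        hfj
    have h2 : f v < f (x j) :=
      (hfF v (subset_convexHull ℝ _ ⟨⟨none, by simp⟩, rfl⟩)).trans hfj
    have h3 : f z ≤ f (x j) := by
      have hsub : convexHull ℝ (range x) ⊆ {p | f p ≤ f (x j)} := by
        apply convexHull_min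
        · rintro _ ⟨k, rfl⟩
          by_cases hk : k = j
          · rw [hk]; exact le_refl (f (x j))
          · exact (h1 k hk).le
        · exact convex_halfSpace_le f.isLinear _
      exact hsub hz
    have h4 : f (v + t • (z - v)) < f (x j) := by
      rw [map_add, map_smul, map_sub, smul_eq_mul]
      nlinarith
    intro hcon
    have hsub : convexHull ℝ (range fun k : {k // k ≠ some j} => O x (v + t • (z - v)) k) ⊆
        {p | f p < f (x j)} := by
      apply convexHull_min
      · rintro _ ⟨⟨k, hk⟩, rfl⟩
        cases k with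
        | none => exact h4
        | some k => exact h1 k (fun h => hk (by rw [h]))
      · exact convex_halfSpace_lt f.isLinear _
    exact lt_irrefl (f (x j)) (hsub hcon)

variable [MeasurableSpace E] [BorelSpace E]

theorem V_mono_O {ι : Type*} [Finite ι] (x : ι → E) (y : E) : V x ≤ V (O x y) := by
  unfold V
  apply ENNReal.toReal_mono (isCompact_hull_range (O x y)).measure_lt_top.ne
  apply measure_mono
  apply convexHull_mono
  rw [range_O]
  exact subset_insert _ _

theorem O_smul {ι : Type*} (r : ℝ) (x : ι → E) (y : E) : r • O x y = O (r • x) (r • y) := by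
  ext o
  cases o <;> rfl

/-- deletion up to scaling, family form -/
theorem sim_O {ι : Type*} [Finite ι] (hd : 2 ≤ Module.finrank ℝ E) {c : ℝ}
    (hc : 0 < c) {J : Set ℝ} (hJ : IsOpen J) (hJ0 : ∀ v ∈ J, 0 < v) (hJc : OrdConnected J)
    (hcJ : c ∈ J) {x : ι → E} {v : E}
    (h : ConvexIndependent ℝ (O x v)) (hV : 0 < V x) :
    Sim c J (range (O x v)) (range x) := by
  classical
  have hfin : Fintype ι := Fintype.ofFinite ι
  have hd0 : Module.finrank ℝ E ≠ 0 := by omega
  have hne : (convexHull ℝ (range x)).Nonempty := by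
    by_contra hcon
    rw [not_nonempty_iff_eq_empty] at hcon
    rw [V, hcon] at hV
    simp at hV
  obtain ⟨z, hz⟩ := hne
  have hvout : v ∉ convexHull ℝ (range x) := by
    have h0 := (cf_iff _).1 h none
    intro hcon
    apply h0
    refine convexHull_mono ?_ hcon
    rintro _ ⟨k, rfl⟩
    exact ⟨⟨some k, by simp⟩, rfl⟩
  set γ : ℝ → E := fun t => v + t • (z - v) with hγ
  have hγc : Continuous γ := by fun_prop
  have hγ0 : γ 0 = v := by simp [hγ]
  have hγ1 : γ 1 = z := by simp [hγ]
  -- first hitting time
  set B : Set ℝ := Icc 0 1 ∩ γ ⁻¹' convexHull ℝ (range x) with hB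
  have hBc : IsCompact B := isCompact_Icc.inter_right ((isCompact_hull_range x).isClosed.preimage hγc)
  have hBne : B.Nonempty := ⟨1, ⟨by norm_num, le_rfl⟩, by rw [mem_preimage, hγ1]; exact hz⟩
  obtain ⟨T, ⟨⟨hT0, hT1⟩, hTm⟩, hTmin⟩ := hBc.exists_isLeast hBne
  have hTm : γ T ∈ convexHull ℝ (range x) := hTm
  have hTpos : 0 < T := by
    rcases hT0.lt_or_eq with h' | h'
    · exact h'
    · exfalso
      rw [← h', hγ0] at hTm
      exact hvout hTm
  have hout : ∀ t ∈ Ico (0 : ℝ) T, γ t ∉ convexHull ℝ (range x) := by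
    intro t ht hcon
    have := hTmin (show t ∈ B from ⟨⟨ht.1, ht.2.le.trans hT1⟩, hcon⟩)
    linarith [ht.2]
  have hcf : ∀ t ∈ Ico (0 : ℝ) T, ConvexIndependent ℝ (O x (γ t)) := fun t ht =>
    cf_O_move h hz ht.1 (ht.2.trans_le hT1) (hout t ht)
  have hOc : Continuous (fun t => O x (γ t)) := continuous_O.comp (continuous_const.prodMk hγc)
  have hVpos : ∀ t, 0 < V (O x (γ t)) := fun t => hV.trans_le (V_mono_O x _)
  have hVT : V (O x (γ T)) = V x := by
    unfold V
    have h1 : convexHull ℝ (range (O x (γ T))) = convexHull ℝ (range x) := by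
      apply Subset.antisymm
      · apply convexHull_min _ (convex_convexHull ℝ _)
        rw [range_O]
        exact insert_subset hTm (subset_convexHull ℝ _)
      · apply convexHull_mono
        rw [range_O]
        exact subset_insert _ _
    rw [h1]
  -- the path
  have hpath : ∀ t ∈ Ico (0 : ℝ) T, Sim c J (range (O x v)) (range (O x (γ t))) := by
    intro t ht
    have hA : IsPreconnected ((fun t => O x (γ t)) '' Ico (0 : ℝ) T) :=
      isPreconnected_Ico.image _ hOc.continuousOn
    apply sim_of_preconnected hd hc hJ hcJ hA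
    · rintro _ ⟨s, hs, rfl⟩
      exact ⟨hcf s hs, hVpos s⟩
    · exact ⟨0, ⟨le_rfl, hTpos⟩, by dsimp only; rw [hγ0]⟩
    · exact ⟨t, ht, rfl⟩
  -- near the hitting time deletion is harmless
  have hlim : ContinuousAt (fun t => sc E c (V (O x (γ t)))) T := by
    have h1 : ContinuousOn (fun y : Option ι → E => sc E c (V y)) {y | 0 < V y} :=
      continuousOn_sc hc
    have h2 : IsOpen {y : Option ι → E | 0 < V y} := isOpen_lt continuous_const continuous_V
    have h3 := h1.continuousAt (h2.mem_nhds (hVpos T))
    exact ContinuousAt.comp (f := fun t => O x (γ t)) (x := T) h3 hOc.continuousAt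
  have hlim2 : ∀ᶠ t in 𝓝 T, V (sc E c (V (O x (γ t))) • x) ∈ J := by
    have h1 : ContinuousAt (fun t => sc E c (V (O x (γ t))) • x) T := hlim.smul continuousAt_const
    have h2 : ContinuousAt (fun t => V (sc E c (V (O x (γ t))) • x)) T :=
      ContinuousAt.comp (f := fun t => sc E c (V (O x (γ t))) • x) (x := T)
        continuous_V.continuousAt h1
    apply h2.eventually_mem
    apply hJ.mem_nhds
    rw [hVT, V_nrm hd0 hc hV]
    exact hcJ
  have hlt : ∀ᶠ t in 𝓝[<] T, t ∈ Ico (0 : ℝ) T := Ico_mem_nhdsLT hTpos
  obtain ⟨t, htJ, ht⟩ := ((hlim2.filter_mono nhdsWithin_le_nhds).and hlt).exists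
  refine (hpath t ht).trans ?_
  set μ := sc E c (V (O x (γ t))) with hμ
  have hμ0 : 0 < μ := sc_pos hc (hVpos t)
  have e1 : nrm c (range (O x (γ t))) = range (O (μ • x) (μ • γ t)) := by
    rw [nrm_range, ← O_smul]
  have hcf' : ConvexIndependent ℝ (O (μ • x) (μ • γ t)) := by
    rw [← O_smul]
    exact cf_smul hμ0.ne' (hcf t ht)
  have s1 : Step J (range (μ • x)) (range (O (μ • x) (μ • γ t))) := by
    refine ⟨val_range (cf_of_O hcf') htJ, val_range hcf' ?_, μ • γ t, ?_, range_O _ _⟩
    · rw [← O_smul, V_nrm hd0 hc (hVpos t)]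
      exact hcJ
    · rintro ⟨j, hj⟩
      have : some j = none := hcf'.injective hj
      simp at this
  have r1 : Rel J (nrm c (range (O x (γ t)))) (range (μ • x)) := by
    rw [e1]
    exact Relation.EqvGen.symm _ _ (Relation.EqvGen.rel _ _ s1)
  -- finally rescale within J
  have r2 : Rel J (range (μ • x)) (nrm c (range x)) := by
    have h1 := rel_nrm hd hc hJ hJ0 hJc hcJ (val_range (cf_of_O hcf') htJ)
    rw [range_smul', nrm_smul hd0 hc hμ0 (by rw [← V_eq]; exact hV)] at h1
    rw [range_smul']
    exact h1
  exact Relation.EqvGen.trans _ _ _ r1 r2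

/-- deletion up to scaling, set form -/
theorem sim_insert (hd : 2 ≤ Module.finrank ℝ E) {c : ℝ}
    (hc : 0 < c) {J : Set ℝ} (hJ : IsOpen J) (hJ0 : ∀ v ∈ J, 0 < v) (hJc : OrdConnected J)
    (hcJ : c ∈ J) {S : Set E} (hS : S.Finite) {v : E} (hv : v ∉ S)
    (h : ConvexIndependent ℝ ((↑) : ↥(insert v S) → E)) (hV : 0 < VS S) :
    Sim c J (insert v S) S := by
  have : Finite S := hS
  have h1 : ConvexIndependent ℝ (O ((↑) : S → E) v) := by
    have hinj : Injective (O ((↑) : S → E) v) := by
      intro a b hab
      cases a with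
      | none =>
        cases b with
        | none => rfl
        | some b => exact absurd (show (b : E) = v from hab.symm) (fun h => hv (h ▸ b.2))
      | some a =>
        cases b with
        | none => exact absurd (show (a : E) = v from hab) (fun h => hv (h ▸ a.2))
        | some b => rw [Subtype.ext (show (a : E) = b from hab)]
    rw [← hinj.convexIndependent_iff_set, range_O, Subtype.range_coe]
    exact h
  have h2 := sim_O hd hc hJ hJ0 hJc hcJ h1 (by rw [V_eq, Subtype.range_coe]; exact hV)
  rw [range_O, Subtype.range_coe] at h2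
  exact h2

end Pool.Agent.R176.PM
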