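import Pool.Agent.R176.PM.Simplex

/-! # Polytope moves: all polytopes are equivalent up to scaling -/

namespace Pool.Agent.R176.PM

open Set Filter Topology MeasureTheory Function
open scoped Pointwise

set_option linter.unusedSectionVars false
set_option linter.unusedVariables false
set_option maxHeartbeats 4000000

variable {E : Type*} [NormedAddCommGroup E] [InnerProductSpace ℝ E] [FiniteDimensional ℝ E]
variable [MeasurableSpace E] [BorelSpace E]

theorem VS_pos_iff {S : Set E} (hS : S.Finite) : 0 < VS S ↔ affineSpan ℝ S = ⊤ := by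
  rw [← interior_convexHull_nonempty_iff_affineSpan_eq_top]
  have hcomp : IsCompact (convexHull ℝ S) := hS.isCompact_convexHull (𝕜 := ℝ)
  unfold VS
  constructor
  · intro h
    by_contra hcon
    rw [not_nonempty_iff_eq_empty] at hcon
    have h1 : volume (frontier (convexHull ℝ S)) = 0 :=
      (convex_convexHull ℝ _).addHaar_frontier volume
    rw [frontier, hcomp.isClosed.closure_eq, hcon, sdiff_empty] at h1
    rw [h1] at h
    simp at h
  · intro h
    have h1 : 0 < volume (interior (convexHull ℝ S)) := isOpen_interior.measure_pos _ h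
    exact ENNReal.toReal_pos (h1.trans_le (measure_mono interior_subset)).ne'
      hcomp.measure_lt_top.ne

/-- the parameters of the window -/
structure Win (E : Type*) [NormedAddCommGroup E] [InnerProductSpace ℝ E] (c : ℝ) (J : Set ℝ) :
    Prop where
  dim : 2 ≤ Module.finrank ℝ E
  pos : 0 < c
  op : IsOpen J
  posJ : ∀ v ∈ J, 0 < v
  ord : OrdConnected J
  mem : c ∈ J

theorem span_of_ai {ι : Type*} [Fintype ι] (b : AffineBasis ι ℝ E) {x : ι → E}
    (hx : AffineIndependent ℝ x) : affineSpan ℝ (range x) = ⊤ := by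
  rw [hx.affineSpan_eq_top_iff_card_eq_finrank_add_one]
  exact b.ind.affineSpan_eq_top_iff_card_eq_finrank_add_one.1 b.tot

theorem V_pos_of_ai {ι : Type*} [Fintype ι] (b : AffineBasis ι ℝ E) {x : ι → E}
    (hx : AffineIndependent ℝ x) : 0 < V x := by
  rw [V_eq, VS_pos_iff (finite_range x)]
  exact span_of_ai b hx

theorem sim_update_pos {ι : Type*} [Fintype ι] [DecidableEq ι] {c : ℝ} {J : Set ℝ}
    (W : Win E c J) (b : AffineBasis ι ℝ E) (i : ι) (v : E) (hv : 0 < b.coord i v) :
    Sim c J (range b) (range (update b i v)) := by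
  have hA : IsPreconnected ((fun w => update b i w) '' {w : E | 0 < b.coord i w}) := by
    apply IsPreconnected.image
    · have : Convex ℝ {w : E | 0 < b.coord i w} := (convex_Ioi (0 : ℝ)).affine_preimage (b.coord i)
      exact this.isPreconnected
    · exact (Continuous.update (f := fun _ : E => (b : ι → E)) continuous_const i continuous_id).continuousOn
  have h1 := sim_of_preconnected W.dim W.pos W.op W.mem hA (x := (b : ι → E))
    (y := update b i v) ?_ ?_ ?_
  · exact h1
  · rintro _ ⟨w, hw, rfl⟩
    have h2 := affine_update b i w (ne_of_gt hw)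
    exact ⟨cf_of_affine h2, V_pos_of_ai b h2⟩
  · exact ⟨b i, by simp, by simp⟩
  · exact ⟨v, hv, rfl⟩

theorem sim_update {ι : Type*} [Fintype ι] [DecidableEq ι] {c : ℝ} {J : Set ℝ}
    (W : Win E c J) (b : AffineBasis ι ℝ E) (i : ι) (v : E) (hv : b.coord i v ≠ 0) :
    Sim c J (range b) (range (update b i v)) := by
  rcases hv.lt_or_gt with hv' | hv'
  swap
  · exact sim_update_pos W b i v hv'
  have hcard : Fintype.card ι = Module.finrank ℝ E + 1 :=
    b.ind.affineSpan_eq_top_iff_card_eq_finrank_add_one.1 b.tot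
  have hdim := W.dim
  have hcard3 : 3 ≤ Fintype.card ι := by omega
  have hn : (0 : ℝ) < (Fintype.card ι : ℝ) - 1 := by
    have : (3 : ℝ) ≤ Fintype.card ι := by exact_mod_cast hcard3
    linarith
  set κ : ℝ := 2 / ((Fintype.card ι : ℝ) - 1) with hκ
  set w : E := κ • ∑ j ∈ Finset.univ.erase i, b j - v with hw
  have hcoord : ∀ p : E, b.coord i p = (b.coord i).linear p + b.coord i 0 := by
    intro p
    have := (b.coord i).map_vadd 0 p
    simpa using this
  have hlin : ∀ j, j ≠ i → (b.coord i).linear (b j) = - b.coord i 0 := by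
    intro j hj
    have := hcoord (b j)
    rw [b.coord_apply_ne (Ne.symm hj)] at this
    linarith
  have hcardE : ((Finset.univ.erase i).card : ℝ) = (Fintype.card ι : ℝ) - 1 := by
    rw [Finset.card_erase_of_mem (Finset.mem_univ _), Finset.card_univ, Nat.cast_sub (by omega)]
    simp
  have hwv : b.coord i w = - b.coord i v := by
    rw [hcoord w, hw, map_sub, map_smul, map_sum,
      Finset.sum_congr rfl (fun j hj => hlin j (Finset.ne_of_mem_erase hj)), Finset.sum_const,
      nsmul_eq_mul, hcardE, hcoord v, smul_eq_mul, hκ]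
    field_simp
    ring
  have hwpos : 0 < b.coord i w := by rw [hwv]; linarith
  have s1 := sim_update_pos W b i w hwpos
  have a1 := affine_update b i w hwpos.ne'
  have a2 := affine_update b i v hv
  have esum : ∀ z : E, ∑ j ∈ Finset.univ.erase i, update b i z j =
      ∑ j ∈ Finset.univ.erase i, b j := fun z =>
    Finset.sum_congr rfl (fun j hj => update_of_ne (Finset.ne_of_mem_erase hj) _ _)
  have c1 : ConvexIndependent ℝ (O (update b i w) v) := by
    apply cf_bipyramid hcard3 a1 i
    rw [update_self, esum, hw]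
    abel
  have c2 : ConvexIndependent ℝ (O (update b i v) w) := by
    apply cf_bipyramid hcard3 a2 i
    rw [update_self, esum, hw]
    abel
  have s2 := sim_O W.dim W.pos W.op W.posJ W.ord W.mem c1 (V_pos_of_ai b a1)
  have s3 := sim_O W.dim W.pos W.op W.posJ W.ord W.mem c2 (V_pos_of_ai b a2)
  have heq : range (O (update b i w) v) = range (O (update b i v) w) := by
    rw [range_O, range_O]
    ext z
    simp only [mem_insert_iff, mem_range]
    constructor
    · rintro (rfl | ⟨j, rfl⟩)
      · right; exact ⟨i, by simp⟩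
      · by_cases hji : j = i
        · left; rw [hji]; simp
        · right; exact ⟨j, by simp [hji]⟩
    · rintro (rfl | ⟨j, rfl⟩)
      · right; exact ⟨i, by simp⟩
      · by_cases hji : j = i
        · left; rw [hji]; simp
        · right; exact ⟨j, by simp [hji]⟩
  rw [heq] at s2
  exact s1.trans (s2.symm.trans s3)

/-- vertex sets of simplices -/
def IsSx (T : Set E) : Prop := AffineIndependent ℝ ((↑) : T → E) ∧ affineSpan ℝ T = ⊤

theorem IsSx.finite {T : Set E} (h : IsSx T) : T.Finite :=
  finite_set_of_fin_dim_affineIndependent ℝ h.1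

theorem IsSx.ncard {T : Set E} (h : IsSx T) : T.ncard = Module.finrank ℝ E + 1 := by
  have : Fintype T := h.finite.fintype
  have h1 := h.1.affineSpan_eq_top_iff_card_eq_finrank_add_one.1
    (by rw [Subtype.range_coe]; exact h.2)
  rw [← h1, Set.ncard_eq_toFinset_card', Set.toFinset_card]

theorem sim_sx {c : ℝ} {J : Set ℝ} (W : Win E c J) {T' : Set E} (hT' : IsSx T') :
    ∀ (n : ℕ) (T : Set E), IsSx T → (T \ T').ncard = n → Sim c J T T' := by
  classical
  intro n
  induction n with
  | zero =>
    intro T hT h0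
    have hfin : (T \ T').Finite := hT.finite.subset sdiff_subset
    rw [Set.ncard_eq_zero hfin, sdiff_eq_empty] at h0
    have : T = T' := Set.eq_of_subset_of_ncard_le h0 (by rw [hT.ncard, hT'.ncard]) hT'.finite
    rw [this]
    exact Sim.refl _
  | succ n ih =>
    intro T hT hn
    have hfin : (T \ T').Finite := hT.finite.subset sdiff_subset
    have hne : (T \ T').Nonempty := by
      rw [← Set.ncard_pos hfin, hn]; omega
    obtain ⟨t, htT, htT'⟩ := hne
    have : Fintype T := hT.finite.fintype
    let b : AffineBasis T ℝ E := ⟨(↑), hT.1, by rw [Subtype.range_coe]; exact hT.2⟩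
    have hb : ∀ a : T, b a = (a : E) := fun _ => rfl
    obtain ⟨t', ht', hct'⟩ : ∃ t' ∈ T', b.coord ⟨t, htT⟩ t' ≠ 0 := by
      by_contra hcon
      push Not at hcon
      have h1 : b.coord ⟨t, htT⟩ = AffineMap.const ℝ E (0 : ℝ) := by
        apply AffineMap.ext_on hT'.2
        intro p hp
        rw [hcon p hp]
        rfl
      have h2 := b.coord_apply_eq ⟨t, htT⟩
      rw [h1] at h2
      simp at h2
    have s1 := sim_update W b ⟨t, htT⟩ t' hct'
    have a1 := affine_update b ⟨t, htT⟩ t' hct'
    have hrb : range b = T := Subtype.range_coe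
    have hset : range (update b ⟨t, htT⟩ t') = insert t' (T \ {t}) := by
      ext z
      simp only [mem_range, mem_insert_iff, Set.mem_sdiff, mem_singleton_iff]
      constructor
      · rintro ⟨a, rfl⟩
        by_cases ha : a = ⟨t, htT⟩
        · left; rw [ha]; simp
        · right
          rw [update_of_ne ha]
          exact ⟨a.2, fun h => ha (Subtype.ext h)⟩
      · rintro (rfl | ⟨h1, h2⟩)
        · exact ⟨⟨t, htT⟩, by simp⟩
        · refine ⟨⟨z, h1⟩, ?_⟩
          rw [update_of_ne (fun h => h2 (congrArg Subtype.val h))]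
          rfl
    have hsx : IsSx (insert t' (T \ {t})) := by
      rw [← hset]
      refine ⟨a1.range, span_of_ai b a1⟩
    rw [hrb, hset] at s1
    refine s1.trans (ih _ hsx ?_)
    have h2 : insert t' (T \ {t}) \ T' = (T \ T') \ {t} := by
      ext z
      simp only [Set.mem_sdiff, mem_insert_iff, mem_singleton_iff]
      constructor
      · rintro ⟨rfl | ⟨h1, h2⟩, h3⟩
        · exact absurd ht' h3
        · exact ⟨⟨h1, h3⟩, h2⟩
      · rintro ⟨⟨h1, h2⟩, h3⟩
        exact ⟨Or.inr ⟨h1, h3⟩, h2⟩
    rw [h2, Set.ncard_sdiff_singleton_of_mem (show t ∈ T \ T' from ⟨htT, htT'⟩), hn]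
    rfl

/-- every admissible set is equivalent to a simplex inside it -/
theorem sim_to_sx {c : ℝ} {J : Set ℝ} (W : Win E c J) {T : Set E} (hT : affineSpan ℝ T = ⊤) :
    ∀ (n : ℕ) (S : Set E), S.Finite → ConvexIndependent ℝ ((↑) : S → E) → T ⊆ S →
      (S \ T).ncard = n → Sim c J S T := by
  intro n
  induction n with
  | zero =>
    intro S hS hci hTS h0
    rw [Set.ncard_eq_zero (hS.subset sdiff_subset), sdiff_eq_empty] at h0
    rw [Subset.antisymm h0 hTS]
    exact Sim.refl _
  | succ n ih =>
    intro S hS hci hTS hn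
    have hfin : (S \ T).Finite := hS.subset sdiff_subset
    have hne : (S \ T).Nonempty := by
      rw [← Set.ncard_pos hfin, hn]; omega
    obtain ⟨v, hvS, hvT⟩ := hne
    have hsub : T ⊆ S \ {v} := fun z hz => ⟨hTS hz, fun h => hvT (by rw [← mem_singleton_iff.1 h]; exact hz)⟩
    have hfin' : (S \ {v}).Finite := hS.subset sdiff_subset
    have hins : insert v (S \ {v}) = S := insert_sdiff_self_of_mem hvS
    have h1 : Sim c J (insert v (S \ {v})) (S \ {v}) := by
      apply sim_insert W.dim W.pos W.op W.posJ W.ord W.mem hfin' (fun h => h.2 rfl)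
      · rw [hins]; exact hci
      · rw [VS_pos_iff hfin']
        exact top_le_iff.1 (hT ▸ affineSpan_mono ℝ hsub)
    rw [hins] at h1
    refine h1.trans (ih _ hfin' (hci.mono sdiff_subset) hsub ?_)
    have h2 : (S \ {v}) \ T = (S \ T) \ {v} := by
      ext z; simp only [Set.mem_sdiff]; tauto
    rw [h2, Set.ncard_sdiff_singleton_of_mem (show v ∈ S \ T from ⟨hvS, hvT⟩), hn]
    rfl

theorem sim_all {c : ℝ} {J : Set ℝ} (W : Win E c J) {S S' : Set E} (hS : S.Finite)
    (hci : ConvexIndependent ℝ ((↑) : S → E)) (hV : 0 < VS S) (hS' : S'.Finite)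
    (hci' : ConvexIndependent ℝ ((↑) : S' → E)) (hV' : 0 < VS S') : Sim c J S S' := by
  rw [VS_pos_iff hS] at hV
  rw [VS_pos_iff hS'] at hV'
  obtain ⟨T, hTS, hTs, hTi⟩ := exists_affineIndependent ℝ E S
  obtain ⟨T', hTS', hTs', hTi'⟩ := exists_affineIndependent ℝ E S'
  have h1 : IsSx T := ⟨hTi, by rw [hTs, hV]⟩
  have h2 : IsSx T' := ⟨hTi', by rw [hTs', hV']⟩
  exact (sim_to_sx W h1.2 _ S hS hci hTS rfl).trans
    ((sim_sx W h2 _ T h1 rfl).trans (sim_to_sx W h2.2 _ S' hS' hci' hTS' rfl).symm)

/-- any two polytopes with volume in an open window are connected inside the window -/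
theorem rel_all {c : ℝ} {J : Set ℝ} (W : Win E c J) {S S' : Set E} (hS : Val J S)
    (hS' : Val J S') : Rel J S S' := by
  have h := sim_all W hS.1 hS.2.1 (W.posJ _ hS.2.2) hS'.1 hS'.2.1 (W.posJ _ hS'.2.2)
  have r1 := rel_nrm W.dim W.pos W.op W.posJ W.ord W.mem hS
  have r2 := rel_nrm W.dim W.pos W.op W.posJ W.ord W.mem hS'
  exact Relation.EqvGen.trans _ _ _ r1 (Relation.EqvGen.trans _ _ _ h
    (Relation.EqvGen.symm _ _ r2))

end Pool.Agent.R176.PM
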