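import Pool.Agent.R176.PM.Exchange
import Pool.Agent.R176.PM.Defs

/-! # Polytope moves: the graph -/

namespace Pool.Agent.R176.PM

open Set Filter Topology MeasureTheory Function
open scoped Pointwise

set_option linter.unusedSectionVars false
set_option linter.unusedVariables false
set_option maxHeartbeats 4000000

section general

variable {E : Type*} [NormedAddCommGroup E] [InnerProductSpace ℝ E] [FiniteDimensional ℝ E]

theorem hull_ext {S : Set E} (hS : S.Finite) :
    convexHull ℝ ((convexHull ℝ S).extremePoints ℝ) = convexHull ℝ S := by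
  have hcomp : IsCompact (convexHull ℝ S) := hS.isCompact_convexHull (𝕜 := ℝ)
  have h1 := closure_convexHull_extremePoints hcomp (convex_convexHull ℝ S)
  have h2 : ((convexHull ℝ S).extremePoints ℝ).Finite :=
    hS.subset extremePoints_convexHull_subset
  have h3 : IsClosed (convexHull ℝ ((convexHull ℝ S).extremePoints ℝ)) :=
    (h2.isCompact_convexHull (𝕜 := ℝ)).isClosed
  rw [h3.closure_eq] at h1
  exact h1

theorem ext_hull {S : Set E} (hS : S.Finite) (hci : ConvexIndependent ℝ ((↑) : S → E)) :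
    (convexHull ℝ S).extremePoints ℝ = S := by
  apply Subset.antisymm extremePoints_convexHull_subset
  intro x hx
  by_contra hcon
  rw [convexIndependent_set_iff_notMem_convexHull_sdiff] at hci
  apply hci x hx
  have h1 : x ∈ convexHull ℝ S := subset_convexHull ℝ _ hx
  rw [← hull_ext hS] at h1
  refine convexHull_mono ?_ h1
  intro z hz
  refine ⟨extremePoints_convexHull_subset hz, ?_⟩
  intro h
  rw [mem_singleton_iff] at h
  rw [h] at hz
  exact hcon hz

theorem hull_union (S : Set E) (y : E) :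
    convexHull ℝ (convexHull ℝ S ∪ {y}) = convexHull ℝ (insert y S) := by
  apply Subset.antisymm
  · apply convexHull_min _ (convex_convexHull ℝ _)
    apply union_subset
    · exact convexHull_mono (subset_insert _ _)
    · rw [singleton_subset_iff]
      exact subset_convexHull ℝ _ (mem_insert _ _)
  · apply convexHull_mono
    rw [insert_subset_iff]
    exact ⟨Or.inr rfl, (subset_convexHull ℝ S).trans subset_union_left⟩

variable [MeasurableSpace E] [BorelSpace E]

theorem interior_nonempty_iff {S : Set E} (hS : S.Finite) :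
    (interior (convexHull ℝ S)).Nonempty ↔ 0 < VS S := by
  rw [VS_pos_iff hS, interior_convexHull_nonempty_iff_affineSpan_eq_top]

/-- adding a point outside increases the volume -/
theorem VS_lt_insert {S : Set E} (hS : S.Finite) (hV : 0 < VS S) {y : E}
    (hy : y ∉ convexHull ℝ S) : VS S < VS (insert y S) := by
  have hS' : (insert y S).Finite := hS.insert y
  have hc1 : IsCompact (convexHull ℝ S) := hS.isCompact_convexHull (𝕜 := ℝ)
  have hc2 : IsCompact (convexHull ℝ (insert y S)) := hS'.isCompact_convexHull (𝕜 := ℝ)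
  have hsub : convexHull ℝ S ⊆ convexHull ℝ (insert y S) := convexHull_mono (subset_insert _ _)
  have hint : (interior (convexHull ℝ (insert y S))).Nonempty := by
    have h1 := (interior_nonempty_iff hS).2 hV
    exact h1.mono (interior_mono hsub)
  set U : Set E := interior (convexHull ℝ (insert y S)) \ convexHull ℝ S with hU
  have hUo : IsOpen U := isOpen_interior.sdiff hc1.isClosed
  have hUn : U.Nonempty := by
    by_contra hcon
    rw [not_nonempty_iff_eq_empty, hU, sdiff_eq_empty] at hcon
    have h1 : closure (interior (convexHull ℝ (insert y S))) = closure (convexHull ℝ (insert y S)) :=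
      (convex_convexHull ℝ _).closure_interior_eq_closure_of_nonempty_interior hint
    have h2 : y ∈ closure (interior (convexHull ℝ (insert y S))) := by
      rw [h1]
      exact subset_closure (subset_convexHull ℝ _ (mem_insert _ _))
    exact hy (hc1.isClosed.closure_subset (closure_mono hcon h2))
  have hpos : 0 < volume U := hUo.measure_pos _ hUn
  unfold VS
  apply (ENNReal.toReal_lt_toReal hc1.measure_lt_top.ne hc2.measure_lt_top.ne).2
  have hdisj : Disjoint (convexHull ℝ S) U := disjoint_sdiff_right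
  calc volume (convexHull ℝ S) < volume (convexHull ℝ S) + volume U :=
        ENNReal.lt_add_right hc1.measure_lt_top.ne hpos.ne'
    _ = volume (convexHull ℝ S ∪ U) := (measure_union hdisj hUo.measurableSet).symm
    _ ≤ volume (convexHull ℝ (insert y S)) := by
        apply measure_mono
        exact union_subset hsub (sdiff_subset.trans interior_subset)

/-- there is a simplex of every volume -/
theorem exists_sx_vol (hd : 2 ≤ Module.finrank ℝ E) {c : ℝ} (hc : 0 < c) :
    ∃ T : Set E, IsSx T ∧ T.Finite ∧ ConvexIndependent ℝ ((↑) : T → E) ∧ VS T = c := by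
  obtain ⟨s, b, hb⟩ := AffineBasis.exists_affineBasis ℝ E E
  have hs : IsSx s := by
    refine ⟨by rw [← hb]; exact b.ind, ?_⟩
    have := b.tot
    rw [hb, Subtype.range_coe] at this
    exact this
  have hfin := hs.finite
  have hVs : 0 < VS s := (VS_pos_iff hfin).2 hs.2
  have hpos : 0 < sc E c (VS s) := sc_pos hc hVs
  have hfs : Fintype s := hfin.fintype
  set T : Set E := sc E c (VS s) • s with hT
  have hTfin : T.Finite := hfin.image _
  have hVT : VS T = c := by
    rw [hT, VS_smul _ hpos.le, sc_pow (by omega) hc hVs]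
    field_simp
  have hTr : T = range (sc E c (VS s) • ((↑) : s → E)) := by rw [range_smul', Subtype.range_coe]
  have hai : AffineIndependent ℝ (sc E c (VS s) • ((↑) : s → E)) := by
    rw [ai_iff]
    intro w h0 h1
    apply (ai_iff _).1 hs.1 w h0
    have h2 : sc E c (VS s) • ∑ i, w i • (i : E) = 0 := by
      rw [← h1, Finset.smul_sum]
      apply Finset.sum_congr rfl
      intro i _
      rw [Pi.smul_apply, smul_comm]
    exact (smul_eq_zero.1 h2).resolve_left hpos.ne'
  have hsx : IsSx T := by
    refine ⟨by rw [hTr]; exact hai.range, ?_⟩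
    rw [← VS_pos_iff hTfin, hVT]
    exact hc
  exact ⟨T, hsx, hTfin, cf_of_affine hsx.1, hVT⟩

/-- a polytope can be enlarged a little by an insertion -/
theorem exists_insert (hd : 2 ≤ Module.finrank ℝ E) {S : Set E} (hS : S.Finite)
    (hci : ConvexIndependent ℝ ((↑) : S → E)) (hV : 0 < VS S) {M : ℝ} (hM : VS S < M) :
    ∃ y, y ∉ S ∧ ConvexIndependent ℝ ((↑) : ↥(insert y S) → E) ∧ VS S < VS (insert y S) ∧
      VS (insert y S) < M := by
  have : Finite S := hS
  have hne : S.Nonempty := by
    by_contra hcon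
    rw [not_nonempty_iff_eq_empty] at hcon
    rw [hcon, VS] at hV
    simp at hV
  obtain ⟨s, hs⟩ := hne
  set x : S → E := (↑) with hx
  have hrx : range x = S := Subtype.range_coe
  have h1 := frequently_helper hd x hci ⟨s, hs⟩
  have h2 : ∀ᶠ y in 𝓝 (x ⟨s, hs⟩), V (O x y) ∈ Iio M := by
    have hc : Continuous (fun y : E => O x y) :=
      continuous_O.comp (continuous_const.prodMk continuous_id)
    apply ev_V hc isOpen_Iio
    rw [V_eq, range_O, insert_eq_of_mem (mem_range_self _), hrx]
    exact hM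
  obtain ⟨y, hy1, hy2⟩ := (h1.and_eventually h2).exists
  have hyout : y ∉ convexHull ℝ S := by
    have h3 := (cf_iff _).1 hy1 none
    intro hcon
    apply h3
    rw [← hrx] at hcon
    refine convexHull_mono ?_ hcon
    rintro _ ⟨k, rfl⟩
    exact ⟨⟨some k, by simp⟩, rfl⟩
  refine ⟨y, fun h => hyout (subset_convexHull ℝ _ h), ?_, VS_lt_insert hS hV hyout, ?_⟩
  · have := hy1.range
    rw [range_O, hrx] at this
    exact this
  · have := hy2
    rw [V_eq, range_O, hrx] at this
    exact this

end general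

variable {d : ℕ}

theorem polytope_of_val {I : Set ℝ} (hI : ∀ v ∈ I, 0 < v) {S : Set (EuclideanSpace ℝ (Fin d))}
    (hS : Val I S) : IsPolytope (convexHull ℝ S) ∧ (volume (convexHull ℝ S)).toReal ∈ I :=
  ⟨⟨⟨S, hS.1, rfl⟩, (interior_nonempty_iff hS.1).2 (hI _ hS.2.2)⟩, hS.2.2⟩

theorem adj_of_step {I : Set ℝ} (hI : ∀ v ∈ I, 0 < v) {S T : Set (EuclideanSpace ℝ (Fin d))}
    (hS : Val I S) (hT : Val I T) (h : ∃ y, y ∉ S ∧ T = insert y S) :
    (moveGraph d I).Adj ⟨convexHull ℝ S, polytope_of_val hI hS⟩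
      ⟨convexHull ℝ T, polytope_of_val hI hT⟩ := by
  obtain ⟨y, hy, rfl⟩ := h
  have e1 := ext_hull hS.1 hS.2.1
  have e2 := ext_hull hT.1 hT.2.1
  refine ⟨?_, y, Or.inl ⟨(hull_union S y).symm, ?_⟩⟩
  · intro heq
    have h1 : convexHull ℝ S = convexHull ℝ (insert y S) := congrArg Subtype.val heq
    apply hy
    rw [← e1, h1, e2]
    exact mem_insert _ _
  · show (convexHull ℝ (insert y S)).extremePoints ℝ = (convexHull ℝ S).extremePoints ℝ ∪ {y}
    rw [e1, e2, union_singleton]

theorem reach_of_rel {I J : Set ℝ} (hI : ∀ v ∈ I, 0 < v) (hJI : J ⊆ I)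
    {S T : Set (EuclideanSpace ℝ (Fin d))} (h : Rel J S T) :
    ∀ (hS : Val I S) (hT : Val I T),
    (moveGraph d I).Reachable ⟨convexHull ℝ S, polytope_of_val hI hS⟩
      ⟨convexHull ℝ T, polytope_of_val hI hT⟩ := by
  have key : S = T ∨ (Val I S ∧ Val I T ∧ ∀ (hS : Val I S) (hT : Val I T),
    (moveGraph d I).Reachable ⟨convexHull ℝ S, polytope_of_val hI hS⟩
      ⟨convexHull ℝ T, polytope_of_val hI hT⟩) := by
    have hmono : ∀ A : Set (EuclideanSpace ℝ (Fin d)), Val J A → Val I A :=
      fun A hA => ⟨hA.1, hA.2.1, hJI hA.2.2⟩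
    induction h with
    | rel A B hAB =>
      right
      refine ⟨hmono _ hAB.1, hmono _ hAB.2.1, fun hS hT => ?_⟩
      exact (adj_of_step hI hS hT hAB.2.2).reachable
    | refl A => left; rfl
    | symm A B _ ih =>
      rcases ih with ih | ⟨h1, h2, h3⟩
      · left; exact ih.symm
      · right
        exact ⟨h2, h1, fun hS hT => (h3 hT hS).symm⟩
    | trans A B C _ _ ih1 ih2 =>
      rcases ih1 with rfl | ⟨h1, h2, h3⟩
      · exact ih2
      · rcases ih2 with rfl | ⟨h4, h5, h6⟩
        · right; exact ⟨h1, h2, h3⟩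
        · right
          exact ⟨h1, h5, fun hS hT => (h3 hS h2).trans (h6 h2 hT)⟩
  intro hS hT
  rcases key with rfl | ⟨_, _, h3⟩
  · exact SimpleGraph.Reachable.refl _
  · exact h3 hS hT

/-- every vertex of the graph is the hull of an admissible set -/
theorem exists_val {I : Set ℝ}
    (P : {P : Set (EuclideanSpace ℝ (Fin d)) // IsPolytope P ∧ (volume P).toReal ∈ I}) :
    ∃ S, Val I S ∧ convexHull ℝ S = P.1 ∧ P.1.extremePoints ℝ = S := by
  obtain ⟨P, ⟨⟨S, hS, rfl⟩, hint⟩, hvol⟩ := P
  refine ⟨(convexHull ℝ S).extremePoints ℝ,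
    ⟨hS.subset extremePoints_convexHull_subset, (convex_convexHull ℝ S).convexIndependent_extremePoints,
      ?_⟩, hull_ext hS, rfl⟩
  rw [hull_ext hS]
  exact hvol

theorem connected_of_no_max (hd : 2 ≤ d) {I : Set ℝ} (hI : ∀ v ∈ I, 0 < v) (hord : OrdConnected I)
    (hnt : I.Nontrivial) (hmax : ¬ ∃ M, IsGreatest I M) : (moveGraph d I).Connected := by
  have hdim : 2 ≤ Module.finrank ℝ (EuclideanSpace ℝ (Fin d)) := by
    rw [finrank_euclideanSpace_fin]; exact hd
  -- a larger element
  have hbig : ∀ v ∈ I, ∃ M ∈ I, v < M := by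
    intro v hv
    by_contra hcon
    push Not at hcon
    exact hmax ⟨v, hv, fun w hw => hcon w hw⟩
  have hIoo : ∀ v ∈ I, ∀ M ∈ I, Ioo v M ⊆ interior I := fun v hv M hM =>
    interior_maximal (Ioo_subset_Icc_self.trans (hord.out hv hM)) isOpen_Ioo
  obtain ⟨c, hc⟩ : (interior I).Nonempty := by
    obtain ⟨v, hv, w, hw, hne⟩ := hnt
    rcases hne.lt_or_gt with h | h
    · exact ⟨(v + w) / 2, hIoo v hv w hw ⟨by linarith, by linarith⟩⟩
    · exact ⟨(v + w) / 2, hIoo w hw v hv ⟨by linarith, by linarith⟩⟩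
  have hordJ : OrdConnected (interior I) := by
    have h1 : Convex ℝ (interior I) := (hord.convex (𝕜 := ℝ)).interior
    exact h1.ordConnected
  have W : Win (EuclideanSpace ℝ (Fin d)) c (interior I) :=
    ⟨hdim, hI _ (interior_subset hc), isOpen_interior, fun v hv => hI v (interior_subset hv),
      hordJ, hc⟩
  -- each vertex is joined to one in the interior window
  have hstep : ∀ P : {P : Set (EuclideanSpace ℝ (Fin d)) // IsPolytope P ∧ (volume P).toReal ∈ I},
      ∃ (S : Set (EuclideanSpace ℝ (Fin d))) (hS : Val I S), Val (interior I) S ∧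
        (moveGraph d I).Reachable P ⟨convexHull ℝ S, polytope_of_val hI hS⟩ := by
    intro P
    obtain ⟨S, hS, hSP, _⟩ := exists_val P
    obtain ⟨M, hM, hvM⟩ := hbig _ hS.2.2
    obtain ⟨y, hy, hci, h1, h2⟩ := exists_insert hdim hS.1 hS.2.1 (hI _ hS.2.2) hvM
    have hJ : Val (interior I) (insert y S) :=
      ⟨hS.1.insert y, hci, hIoo _ hS.2.2 M hM ⟨h1, h2⟩⟩
    have hS' : Val I (insert y S) := ⟨hJ.1, hJ.2.1, interior_subset hJ.2.2⟩
    refine ⟨insert y S, hS', hJ, ?_⟩
    have hadj := adj_of_step hI hS hS' ⟨y, hy, rfl⟩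
    have hPeq : P = ⟨convexHull ℝ S, polytope_of_val hI hS⟩ := Subtype.ext hSP.symm
    rw [hPeq]
    exact hadj.reachable
  have hpre : (moveGraph d I).Preconnected := by
    intro P Q
    obtain ⟨S, hS, hSJ, hPS⟩ := hstep P
    obtain ⟨T, hT, hTJ, hQT⟩ := hstep Q
    have h1 := rel_all W hSJ hTJ
    exact hPS.trans ((reach_of_rel hI interior_subset h1 hS hT).trans hQT.symm)
  obtain ⟨T, _, hTf, hTc, hTv⟩ := exists_sx_vol hdim W.pos
  have hT : Val I T := ⟨hTf, hTc, by
    show VS T ∈ I
    rw [hTv]; exact interior_subset hc⟩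
  have : Nonempty {P : Set (EuclideanSpace ℝ (Fin d)) // IsPolytope P ∧ (volume P).toReal ∈ I} :=
    ⟨⟨convexHull ℝ T, polytope_of_val hI hT⟩⟩
  exact ⟨hpre⟩

theorem not_connected_of_max (hd : 2 ≤ d) {I : Set ℝ} (hI : ∀ v ∈ I, 0 < v)
    (hnt : I.Nontrivial) {M : ℝ} (hM : IsGreatest I M) : ¬ (moveGraph d I).Connected := by
  have hdim : 2 ≤ Module.finrank ℝ (EuclideanSpace ℝ (Fin d)) := by
    rw [finrank_euclideanSpace_fin]; exact hd
  intro hcon
  obtain ⟨T, hsx, hTf, hTc, hTv⟩ := exists_sx_vol hdim (hI M hM.1)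
  have hT : Val I T := ⟨hTf, hTc, by
    show VS T ∈ I
    rw [hTv]; exact hM.1⟩
  obtain ⟨v, hv, hvM⟩ : ∃ v ∈ I, v ≠ M := hnt.exists_ne M
  obtain ⟨T', _, hTf', hTc', hTv'⟩ := exists_sx_vol hdim (hI v hv)
  have hT' : Val I T' := ⟨hTf', hTc', by
    show VS T' ∈ I
    rw [hTv']; exact hv⟩
  obtain ⟨w⟩ := hcon.preconnected ⟨convexHull ℝ T, polytope_of_val hI hT⟩
    ⟨convexHull ℝ T', polytope_of_val hI hT'⟩
  have hgen : ∀ (A B : {P : Set (EuclideanSpace ℝ (Fin d)) // IsPolytope P ∧ (volume P).toReal ∈ I})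
      (w : (moveGraph d I).Walk A B), A ≠ B → ∃ C, (moveGraph d I).Adj A C := by
    intro A B w h
    cases w with
    | nil => exact absurd rfl h
    | cons h _ => exact ⟨_, h⟩
  obtain ⟨Q, hadj⟩ := hgen _ _ w (by
    intro heq
    have h1 : convexHull ℝ T = convexHull ℝ T' := congrArg Subtype.val heq
    apply hvM
    rw [← hTv, ← hTv', VS, VS, h1])
  · obtain ⟨S, hS, hSQ, hSext⟩ := exists_val Q
    obtain ⟨hne, x, hx | hx⟩ := hadj
    · -- insertion
      obtain ⟨h1, h2⟩ := hx
      dsimp only at h1 h2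
      rw [hull_union] at h1
      have hxout : x ∉ convexHull ℝ T := by
        intro hxin
        apply hne
        apply Subtype.ext
        dsimp only
        rw [h1]
        apply Subset.antisymm (convexHull_mono (subset_insert _ _))
        apply convexHull_min _ (convex_convexHull ℝ _)
        exact insert_subset hxin (subset_convexHull ℝ _)
      have h3 := VS_lt_insert hTf (by rw [hTv]; exact hI M hM.1) hxout
      rw [hTv] at h3
      have h4 := hM.2 Q.2.2
      rw [h1] at h4
      exact absurd h4 (not_le.2 h3)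
    · -- deletion
      obtain ⟨h1, h2⟩ := hx
      dsimp only at h1 h2
      rw [ext_hull hTf hTc, hSext] at h2
      have hxS : x ∉ S := by
        intro hxS
        apply hne
        apply Subtype.ext
        dsimp only
        rw [union_singleton, insert_eq_of_mem hxS] at h2
        rw [h2, hSQ]
      have hST : S ⊆ T := by rw [h2]; exact subset_union_left
      have hSspan : affineSpan ℝ S = ⊤ := (VS_pos_iff hS.1).1 (hI _ hS.2.2)
      have hSsx : IsSx S := ⟨hsx.1.mono hST, hSspan⟩
      have h3 := hSsx.ncard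
      have h4 := hsx.ncard
      rw [h2, union_singleton, Set.ncard_insert_of_notMem hxS hS.1, h3] at h4
      omega

end Pool.Agent.R176.PM
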