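import Pool.Agent.R176.PM.Basic

/-! # Polytope moves: local moves -/

namespace Pool.Agent.R176.PM

open Set Filter Topology MeasureTheory Function

set_option linter.unusedSectionVars false
set_option linter.unusedVariables false
set_option maxHeartbeats 4000000

variable {E : Type*} [NormedAddCommGroup E] [InnerProductSpace ℝ E] [FiniteDimensional ℝ E]

omit [FiniteDimensional ℝ E] in
theorem cf_iff {ι : Type*} (p : ι → E) :
    ConvexIndependent ℝ p ↔ ∀ i, p i ∉ convexHull ℝ (range fun j : {j // j ≠ i} => p j) := by
  have hset : ∀ i, (range fun j : {j // j ≠ i} => p j) = p '' (univ \ {i}) := by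
    intro i
    ext z
    constructor
    · rintro ⟨⟨j, hj⟩, rfl⟩
      exact ⟨j, ⟨mem_univ _, hj⟩, rfl⟩
    · rintro ⟨j, ⟨_, hj⟩, rfl⟩
      exact ⟨⟨j, hj⟩, rfl⟩
  rw [convexIndependent_iff_notMem_convexHull_sdiff]
  constructor
  · intro h i
    rw [hset]
    exact h i univ
  · intro h i s hi
    apply h i
    rw [hset]
    exact convexHull_mono (image_mono (sdiff_subset_sdiff_left (subset_univ s))) hi

/-- the family `x` with one more point -/
def O {ι : Type*} (x : ι → E) (y : E) : Option ι → E := fun o => o.elim y x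

omit [FiniteDimensional ℝ E] in
theorem range_O {ι : Type*} (x : ι → E) (y : E) : range (O x y) = insert y (range x) := by
  ext z
  simp only [mem_range, mem_insert_iff, O]
  constructor
  · rintro ⟨o, rfl⟩
    cases o with
    | none => left; rfl
    | some i => right; exact ⟨i, rfl⟩
  · rintro (rfl | ⟨i, rfl⟩)
    · exact ⟨none, rfl⟩
    · exact ⟨some i, rfl⟩

omit [FiniteDimensional ℝ E] in
theorem continuous_O {ι : Type*} : Continuous (fun q : (ι → E) × E => O q.1 q.2) := by
  apply continuous_pi
  intro o
  cases o with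
  | none => exact continuous_snd
  | some i => exact (continuous_apply i).comp continuous_fst

omit [FiniteDimensional ℝ E] in
theorem isOpen_cf {ι : Type*} [Finite ι] : IsOpen {x : ι → E | ConvexIndependent ℝ x} := by
  have : Fintype ι := Fintype.ofFinite ι
  classical
  have h : {x : ι → E | ConvexIndependent ℝ x} =
      ⋂ i, {x : ι → E | x i ∉ convexHull ℝ (range fun j : {j // j ≠ i} => x j)} := by
    ext x
    simp [cf_iff]
  rw [h]
  apply isOpen_iInter_of_finite
  intro i
  have hc : Continuous (fun x : ι → E => ((fun j : {j // j ≠ i} => x j), x i)) := by fun_prop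
  exact (isClosed_mem_hull (E := E) (ι := {j // j ≠ i})).isOpen_compl.preimage hc

omit [FiniteDimensional ℝ E] in
theorem top_point {κ : Type*} [Finite κ] (z : κ → E) (k : κ) (f : E →ₗ[ℝ] ℝ)
    (hlt : ∀ j, j ≠ k → f (z j) < f (z k)) (p : E) (hp : p ∈ convexHull ℝ (range z))
    (hfp : f (z k) ≤ f p) : p = z k := by
  have : Fintype κ := Fintype.ofFinite κ
  classical
  obtain ⟨w, hw, hsum⟩ := (mem_hull_range z p).1 hp
  have h1 : f p = ∑ i, w i * f (z i) := by
    rw [← hsum, map_sum]
    exact Finset.sum_congr rfl (fun i _ => by rw [map_smul, smul_eq_mul])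
  have h2 : ∑ i, w i * (f (z k) - f (z i)) ≤ 0 := by
    have : ∑ i, w i * (f (z k) - f (z i)) = f (z k) - f p := by
      rw [h1]
      simp only [mul_sub, Finset.sum_sub_distrib]
      rw [← Finset.sum_mul, hw.2, one_mul]
    linarith
  have h3 : ∀ i, 0 ≤ w i * (f (z k) - f (z i)) := by
    intro i
    by_cases hi : i = k
    · subst hi; simp
    · exact mul_nonneg (hw.1 i) (sub_nonneg.2 (hlt i hi).le)
  have h4 : ∀ i, w i * (f (z k) - f (z i)) = 0 := by
    have := (Finset.sum_eq_zero_iff_of_nonneg (fun i _ => h3 i)).1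
      (le_antisymm h2 (Finset.sum_nonneg (fun i _ => h3 i)))
    exact fun i => this i (Finset.mem_univ i)
  have h5 : ∀ i, i ≠ k → w i = 0 := by
    intro i hi
    rcases mul_eq_zero.1 (h4 i) with h | h
    · exact h
    · exact absurd h (sub_pos.2 (hlt i hi)).ne'
  have h6 : w k = 1 := by
    rw [← hw.2]
    exact (Finset.sum_eq_single k (fun i _ hi => h5 i hi) (fun h => absurd (Finset.mem_univ _) h)).symm
  rw [← hsum, Finset.sum_eq_single k (fun i _ hi => by rw [h5 i hi, zero_smul])
    (fun h => absurd (Finset.mem_univ _) h), h6, one_smul]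

/-- helper points exist arbitrarily close to a vertex -/
theorem frequently_helper {ι : Type*} [Finite ι] (hd : 2 ≤ Module.finrank ℝ E) (x : ι → E)
    (hx : ConvexIndependent ℝ x) (i : ι) :
    ∃ᶠ y in 𝓝 (x i), ConvexIndependent ℝ (O x y) := by
  have : Fintype ι := Fintype.ofFinite ι
  classical
  have hxi := (cf_iff x).1 hx i
  obtain ⟨f, u, hfF, hfu⟩ := geometric_hahn_banach_closed_point (convex_convexHull ℝ _)
    (isCompact_hull_range (fun j : {j // j ≠ i} => x j)).isClosed hxi
  have hlt : ∀ j, j ≠ i → f (x j) < f (x i) := fun j hj =>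
    (hfF (x j) (subset_convexHull ℝ _ ⟨⟨j, hj⟩, rfl⟩)).trans hfu
  obtain ⟨e, he, hfe⟩ : ∃ e : E, e ≠ 0 ∧ f e = 0 := by
    have h1 := (f : E →ₗ[ℝ] ℝ).finrank_range_add_finrank_ker
    have h2 : Module.finrank ℝ (LinearMap.range (f : E →ₗ[ℝ] ℝ)) ≤ 1 := by
      have := Submodule.finrank_le (LinearMap.range (f : E →ₗ[ℝ] ℝ))
      simpa using this
    have h3 : 0 < Module.finrank ℝ (LinearMap.ker (f : E →ₗ[ℝ] ℝ)) := by omega
    have : Nontrivial (LinearMap.ker (f : E →ₗ[ℝ] ℝ)) := Module.finrank_pos_iff.1 h3
    obtain ⟨⟨e, he⟩, hne⟩ := exists_ne (0 : LinearMap.ker (f : E →ₗ[ℝ] ℝ))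
    refine ⟨e, ?_, he⟩
    intro h0
    apply hne
    ext
    exact h0
  -- the third type of condition holds nearby
  have hnear : ∀ᶠ y in 𝓝 (x i), ∀ j, j ≠ i →
      O x y (some j) ∉ convexHull ℝ (range fun o : {o // o ≠ some j} => O x y o) := by
    rw [eventually_all]
    intro j
    by_cases hj : j = i
    · simp [hj]
    · have hc : Continuous (fun y : E => ((fun o : {o // o ≠ some j} => O x y o), O x y (some j))) := by
        have h0 : Continuous (fun y : E => O x y) :=
          continuous_O.comp (continuous_const.prodMk continuous_id)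
        have h1 : ∀ o : Option ι, Continuous (fun y : E => O x y o) :=
          fun o => (continuous_apply o).comp h0
        exact (continuous_pi (fun o : {o // o ≠ some j} => h1 o)).prodMk (h1 (some j))
      have ho := (isClosed_mem_hull (E := E) (ι := {o // o ≠ some j})).isOpen_compl.preimage hc
      have hmem : x i ∈ (fun y : E => ((fun o : {o // o ≠ some j} => O x y o), O x y (some j))) ⁻¹'
          {q : ({o // o ≠ some j} → E) × E | q.2 ∈ convexHull ℝ (range q.1)}ᶜ := by
        show ¬ (x j ∈ convexHull ℝ (range fun o : {o // o ≠ some j} => O x (x i) o))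
        intro hcon
        apply (cf_iff x).1 hx j
        refine convexHull_mono ?_ hcon
        rintro _ ⟨⟨o, ho⟩, rfl⟩
        cases o with
        | none => exact ⟨⟨i, fun h => hj h.symm⟩, rfl⟩
        | some k => exact ⟨⟨k, fun h => ho (by rw [h])⟩, rfl⟩
      filter_upwards [ho.mem_nhds hmem] with y hy _
      exact hy
  have hline : Tendsto (fun η : ℝ => x i + η • e) (𝓝[≠] 0) (𝓝 (x i)) := by
    have : Continuous (fun η : ℝ => x i + η • e) := by fun_prop
    have h1 := this.tendsto 0
    simp only [zero_smul, add_zero] at h1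
    exact h1.mono_left nhdsWithin_le_nhds
  apply hline.frequently
  apply Eventually.frequently
  filter_upwards [hline.eventually hnear, self_mem_nhdsWithin] with η hη hη0
  have hη0 : η ≠ 0 := hη0
  have hyx : x i + η • e ≠ x i := by
    intro h
    have : η • e = 0 := by simpa using h
    rcases smul_eq_zero.1 this with h | h
    · exact hη0 h
    · exact he h
  have hfy : f (x i + η • e) = f (x i) := by
    rw [map_add, map_smul, hfe, smul_zero, add_zero]
  rw [cf_iff]
  intro o
  cases o with
  | none =>
    intro hcon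
    apply hyx
    apply top_point x i f hlt _ _ hfy.ge
    refine convexHull_mono ?_ hcon
    rintro _ ⟨⟨o, ho⟩, rfl⟩
    cases o with
    | none => exact absurd rfl ho
    | some k => exact ⟨k, rfl⟩
  | some j =>
    by_cases hj : j = i
    · subst hj
      intro hcon
      have := top_point (fun o : {o // o ≠ some j} => O x (x j + η • e) o) ⟨none, by simp⟩ f ?_ _ hcon ?_
      · exact hyx this.symm
      · rintro ⟨o, ho⟩ hne
        cases o with
        | none => exact absurd rfl hne
        | some k =>
          show f (x k) < f (x j + η • e)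
          rw [hfy]
          exact hlt k (fun h => ho (by rw [h]))
      · show f (x j + η • e) ≤ f (x j)
        exact hfy.le
    · exact hη j hj

variable [MeasurableSpace E] [BorelSpace E]

/-- admissible vertex sets -/
def Val (J : Set ℝ) (S : Set E) : Prop :=
  S.Finite ∧ ConvexIndependent ℝ ((↑) : S → E) ∧ (volume (convexHull ℝ S)).toReal ∈ J

/-- one insertion -/
def Step (J : Set ℝ) (S T : Set E) : Prop :=
  Val J S ∧ Val J T ∧ ∃ y, y ∉ S ∧ T = insert y S

/-- connected by insertions and deletions -/
def Rel (J : Set ℝ) : Set E → Set E → Prop := Relation.EqvGen (Step J)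

theorem val_range {ι : Type*} [Finite ι] {J : Set ℝ} {x : ι → E} (hx : ConvexIndependent ℝ x)
    (hV : V x ∈ J) : Val J (range x) :=
  ⟨finite_range x, hx.range, hV⟩

theorem cf_update_of_O {ι : Type*} [DecidableEq ι] {x : ι → E} {y : E} {i : ι}
    (h : ConvexIndependent ℝ (O x y)) : ConvexIndependent ℝ (update x i y) := by
  have hinj : Function.Injective (fun j : ι => if j = i then (none : Option ι) else some j) := by
    intro a b hab
    dsimp at hab
    split_ifs at hab with h1 h2 h2
    · rw [h1, h2]
    · exact Option.some_injective _ hab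
  have h1 := h.comp_embedding ⟨_, hinj⟩
  have h2 : update x i y = O x y ∘ (fun j : ι => if j = i then (none : Option ι) else some j) := by
    ext j
    by_cases hj : j = i
    · subst hj
      simp [O]
    · simp [O, hj]
  rw [h2]
  exact h1

theorem cf_of_O {ι : Type*} {x : ι → E} {y : E}
    (h : ConvexIndependent ℝ (O x y)) : ConvexIndependent ℝ x :=
  h.comp_embedding ⟨some, Option.some_injective _⟩

theorem two_step {ι : Type*} [Finite ι] [DecidableEq ι] {J : Set ℝ} {x : ι → E} {y : E} {i : ι}
    (h : ConvexIndependent ℝ (O x y)) (h1 : V x ∈ J) (h2 : V (O x y) ∈ J)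
    (h3 : V (update x i y) ∈ J) : Rel J (range x) (range (update x i y)) := by
  have hO : Val J (range (O x y)) := val_range h h2
  have s1 : Step J (range x) (range (O x y)) := by
    refine ⟨val_range (cf_of_O h) h1, hO, y, ?_, range_O x y⟩
    rintro ⟨j, hj⟩
    have : some j = none := h.injective hj
    simp at this
  have s2 : Step J (range (update x i y)) (range (O x y)) := by
    refine ⟨val_range (cf_update_of_O h) h3, hO, x i, ?_, ?_⟩
    · rintro ⟨j, hj⟩
      by_cases hji : j = i
      · subst hji
        rw [update_self] at hj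
        have : none = some j := h.injective (show O x y none = O x y (some j) from hj)
        simp at this
      · rw [update_of_ne hji] at hj
        have : some j = some i := h.injective (show O x y (some j) = O x y (some i) from hj)
        exact hji (Option.some_injective _ this)
    · rw [range_O]
      ext z
      simp only [mem_insert_iff, mem_range]
      constructor
      · rintro (rfl | ⟨j, rfl⟩)
        · right; exact ⟨i, by simp⟩
        · by_cases hji : j = i
          · left; rw [hji]
          · right; exact ⟨j, by simp [hji]⟩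
      · rintro (rfl | ⟨j, rfl⟩)
        · right; exact ⟨i, rfl⟩
        · by_cases hji : j = i
          · left; rw [hji]; simp
          · right; exact ⟨j, by simp [hji]⟩
  exact Relation.EqvGen.trans _ _ _ (Relation.EqvGen.rel _ _ s1)
    (Relation.EqvGen.symm _ _ (Relation.EqvGen.rel _ _ s2))

omit [MeasurableSpace E] [BorelSpace E] in
theorem ev_cf {X : Type*} [TopologicalSpace X] {κ : Type*} [Finite κ] {g : X → κ → E}
    (hc : Continuous g) {a : X} (h : ConvexIndependent ℝ (g a)) :
    ∀ᶠ q in 𝓝 a, ConvexIndependent ℝ (g q) := by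
  have h1 : IsOpen (g ⁻¹' {x : κ → E | ConvexIndependent ℝ x}) := isOpen_cf.preimage hc
  exact h1.mem_nhds h

theorem ev_V {X : Type*} [TopologicalSpace X] {κ : Type*} [Finite κ] {g : X → κ → E}
    (hc : Continuous g) {a : X} {J : Set ℝ} (hJ : IsOpen J) (h : V (g a) ∈ J) :
    ∀ᶠ q in 𝓝 a, V (g q) ∈ J := by
  have : Fintype κ := Fintype.ofFinite κ
  have h1 : IsOpen ((fun q => V (g q)) ⁻¹' J) := hJ.preimage (continuous_V.comp hc)
  exact h1.mem_nhds h

/-- moving one vertex a little -/
theorem eventually_move_one {ι : Type*} [Finite ι] [DecidableEq ι] (hd : 2 ≤ Module.finrank ℝ E)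
    {J : Set ℝ} (hJ : IsOpen J) {x : ι → E} (hx : ConvexIndependent ℝ x) (hV : V x ∈ J) (i : ι) :
    ∀ᶠ q : (ι → E) × E in 𝓝 (x, x i), Rel J (range q.1) (range (update q.1 i q.2)) := by
  have : Fintype ι := Fintype.ofFinite ι
  have hup : Continuous (fun q : (ι → E) × E => update q.1 i q.2) :=
    continuous_fst.update i continuous_snd
  have hself : V (O x (x i)) = V x := by
    unfold V
    rw [range_O, insert_eq_of_mem (mem_range_self i)]
  -- choose the helper point
  obtain ⟨y, hy1, hy2, hy3⟩ : ∃ y, ConvexIndependent ℝ (O x y) ∧ V (O x y) ∈ J ∧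
      V (update x i y) ∈ J := by
    have e1 : ∀ᶠ y in 𝓝 (x i), V (O x y) ∈ J := by
      have hc : Continuous (fun y : E => O x y) :=
        continuous_O.comp (continuous_const.prodMk continuous_id)
      exact ev_V hc hJ (by rw [hself]; exact hV)
    have e2 : ∀ᶠ y in 𝓝 (x i), V (update x i y) ∈ J := by
      have hc : Continuous (fun y : E => update x i y) :=
        hup.comp (continuous_const.prodMk continuous_id)
      exact ev_V hc hJ (by rw [update_eq_self]; exact hV)
    obtain ⟨y, h1, h2, h3⟩ := ((frequently_helper hd x hx i).and_eventually (e1.and e2)).exists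
    exact ⟨y, h1, h2, h3⟩
  have c1 : ∀ᶠ q : (ι → E) × E in 𝓝 (x, x i), V q.1 ∈ J :=
    ev_V (g := fun q : (ι → E) × E => q.1) continuous_fst hJ hV
  have hcO : Continuous (fun q : (ι → E) × E => O q.1 y) :=
    continuous_O.comp (continuous_fst.prodMk continuous_const)
  have c2 : ∀ᶠ q : (ι → E) × E in 𝓝 (x, x i), ConvexIndependent ℝ (O q.1 y) :=
    ev_cf hcO hy1
  have c3 : ∀ᶠ q : (ι → E) × E in 𝓝 (x, x i), V (O q.1 y) ∈ J := ev_V hcO hJ hy2
  have c4 : ∀ᶠ q : (ι → E) × E in 𝓝 (x, x i), V (update q.1 i y) ∈ J := by
    have hc : Continuous (fun q : (ι → E) × E => update q.1 i y) :=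
      hup.comp (continuous_fst.prodMk continuous_const)
    exact ev_V hc hJ hy3
  have hcU : Continuous (fun q : (ι → E) × E => O (update q.1 i q.2) y) :=
    continuous_O.comp (hup.prodMk continuous_const)
  have c5 : ∀ᶠ q : (ι → E) × E in 𝓝 (x, x i), ConvexIndependent ℝ (O (update q.1 i q.2) y) := by
    have h0 : ConvexIndependent ℝ (O (update x i (x i)) y) := by
      rw [update_eq_self]; exact hy1
    exact ev_cf hcU h0
  have c6 : ∀ᶠ q : (ι → E) × E in 𝓝 (x, x i), V (O (update q.1 i q.2) y) ∈ J := by
    have h0 : V (O (update x i (x i)) y) ∈ J := by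
      rw [update_eq_self]; exact hy2
    exact ev_V hcU hJ h0
  have c7 : ∀ᶠ q : (ι → E) × E in 𝓝 (x, x i), V (update q.1 i q.2) ∈ J := by
    have h0 : V (update x i (x i)) ∈ J := by
      rw [update_eq_self]; exact hV
    exact ev_V hup hJ h0
  filter_upwards [c1, c2, c3, c4, c5, c6, c7] with q d1 d2 d3 d4 d5 d6 d7
  have r1 := two_step (i := i) d2 d1 d3 d4
  have r2 := two_step (x := update q.1 i q.2) (y := y) (i := i) d5 d7 d6 (by
    rw [update_idem]; exact d4)
  rw [update_idem] at r2
  exact Relation.EqvGen.trans _ _ _ r1 (Relation.EqvGen.symm _ _ r2)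

/-- moving all vertices a little -/
theorem eventually_move {ι : Type*} [Finite ι] (hd : 2 ≤ Module.finrank ℝ E)
    {J : Set ℝ} (hJ : IsOpen J) {x : ι → E} (hx : ConvexIndependent ℝ x) (hV : V x ∈ J) :
    ∀ᶠ y : ι → E in 𝓝 x, Rel J (range x) (range y) := by
  classical
  have : Fintype ι := Fintype.ofFinite ι
  have key : ∀ s : Finset ι, ∀ᶠ y : ι → E in 𝓝 x, Rel J (range x) (range (s.piecewise y x)) := by
    intro s
    induction s using Finset.induction_on with
    | empty =>
      simp only [Finset.piecewise_empty]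
      exact Eventually.of_forall (fun _ => Relation.EqvGen.refl _)
    | insert i s hi ih =>
      have hc : Continuous (fun y : ι → E => ((s.piecewise y x : ι → E), y i)) := by
        refine Continuous.prodMk ?_ (continuous_apply i)
        apply continuous_pi
        intro j
        by_cases hj : j ∈ s
        · simp only [Finset.piecewise, hj, if_true]
          exact continuous_apply j
        · simp only [Finset.piecewise, hj, if_false]
          exact continuous_const
      have h1 := hc.tendsto x
      have h2 : ((s.piecewise x x : ι → E), x i) = (x, x i) := by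
        rw [Finset.piecewise_same]
      rw [h2] at h1
      filter_upwards [ih, h1.eventually (eventually_move_one hd hJ hx hV i)] with y hy1 hy2
      rw [Finset.piecewise_insert]
      exact Relation.EqvGen.trans _ _ _ hy1 hy2
  simpa using key Finset.univ

theorem rel_of_preconnected {ι : Type*} [Finite ι] (hd : 2 ≤ Module.finrank ℝ E)
    {J : Set ℝ} (hJ : IsOpen J) {A : Set (ι → E)} (hA : IsPreconnected A)
    (hval : ∀ x ∈ A, ConvexIndependent ℝ x ∧ V x ∈ J) {x y : ι → E} (hx : x ∈ A) (hy : y ∈ A) :
    Rel J (range x) (range y) := by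
  refine hA.induction₂ (fun x y => Rel J (range x) (range y)) ?_ ?_ ?_ hx hy
  · intro z hz
    exact nhdsWithin_le_nhds (eventually_move hd hJ (hval z hz).1 (hval z hz).2)
  · intro a b c _ _ _ h1 h2
    exact Relation.EqvGen.trans _ _ _ h1 h2
  · intro a b _ _ h
    exact Relation.EqvGen.symm _ _ h

end Pool.Agent.R176.PM
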