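import Pool.Agent.R176.PM.Local

/-! # Polytope moves: forgetting the volume by rescaling -/

namespace Pool.Agent.R176.PM

open Set Filter Topology MeasureTheory Function
open scoped Pointwise

set_option linter.unusedSectionVars false
set_option linter.unusedVariables false
set_option maxHeartbeats 4000000

variable {E : Type*} [NormedAddCommGroup E] [InnerProductSpace ℝ E] [FiniteDimensional ℝ E]
variable [MeasurableSpace E] [BorelSpace E]

/-- volume of the hull of a set -/
noncomputable def VS (S : Set E) : ℝ := (volume (convexHull ℝ S)).toReal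

theorem V_eq {ι : Type*} (x : ι → E) : V x = VS (range x) := rfl

theorem VS_smul (r : ℝ) (hr : 0 ≤ r) (S : Set E) :
    VS (r • S) = r ^ Module.finrank ℝ E * VS S := by
  unfold VS
  rw [convexHull_smul, Measure.addHaar_smul, ENNReal.toReal_mul, ENNReal.toReal_ofReal (abs_nonneg _),
    abs_of_nonneg (pow_nonneg hr _)]

theorem range_smul' {ι : Type*} (r : ℝ) (x : ι → E) : range (r • x) = r • range x := by
  ext z
  simp only [mem_range, mem_smul_set, Pi.smul_apply]
  constructor
  · rintro ⟨i, rfl⟩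
    exact ⟨x i, ⟨i, rfl⟩, rfl⟩
  · rintro ⟨_, ⟨i, rfl⟩, rfl⟩
    exact ⟨i, rfl⟩

theorem V_smul {ι : Type*} (r : ℝ) (hr : 0 ≤ r) (x : ι → E) :
    V (r • x) = r ^ Module.finrank ℝ E * V x := by
  rw [V_eq, V_eq, range_smul', VS_smul r hr]

theorem cf_smul {ι : Type*} {r : ℝ} (hr : r ≠ 0) {x : ι → E} (hx : ConvexIndependent ℝ x) :
    ConvexIndependent ℝ (r • x) := by
  rw [cf_iff] at hx ⊢
  intro i hcon
  apply hx i
  have h1 : (range fun j : {j // j ≠ i} => (r • x) j) = r • (range fun j : {j // j ≠ i} => x j) :=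
    range_smul' r (fun j : {j // j ≠ i} => x j)
  rw [h1, convexHull_smul] at hcon
  exact (smul_mem_smul_set_iff₀ hr _ _).1 hcon

theorem ci_smul {r : ℝ} (hr : r ≠ 0) {S : Set E} (hS : ConvexIndependent ℝ ((↑) : S → E)) :
    ConvexIndependent ℝ ((↑) : (r • S : Set E) → E) := by
  have h1 : r • S = range (r • ((↑) : S → E)) := by rw [range_smul', Subtype.range_coe]
  rw [h1]
  exact (cf_smul hr hS).range

/-- the scaling factor giving volume `c` -/
noncomputable def sc (E : Type*) [NormedAddCommGroup E] [InnerProductSpace ℝ E] (c v : ℝ) : ℝ :=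
  (c / v) ^ (((Module.finrank ℝ E : ℕ) : ℝ)⁻¹)

theorem sc_pos {c v : ℝ} (hc : 0 < c) (hv : 0 < v) : 0 < sc E c v :=
  Real.rpow_pos_of_pos (div_pos hc hv) _

theorem sc_pow (hd : Module.finrank ℝ E ≠ 0) {c v : ℝ} (hc : 0 < c) (hv : 0 < v) :
    sc E c v ^ Module.finrank ℝ E = c / v :=
  Real.rpow_inv_natCast_pow (div_pos hc hv).le hd

theorem sc_mul (hd : Module.finrank ℝ E ≠ 0) {c v r : ℝ} (hc : 0 < c) (hv : 0 < v) (hr : 0 < r) :
    sc E c (r ^ Module.finrank ℝ E * v) * r = sc E c v := by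
  have h1 : 0 < r ^ Module.finrank ℝ E := pow_pos hr _
  have h2 : 0 < sc E c (r ^ Module.finrank ℝ E * v) * r :=
    mul_pos (sc_pos hc (mul_pos h1 hv)) hr
  apply (pow_left_inj₀ h2.le (sc_pos hc hv).le hd).1
  rw [mul_pow, sc_pow hd hc (mul_pos h1 hv), sc_pow hd hc hv]
  field_simp

/-- rescaling to volume `c` -/
noncomputable def nrm (c : ℝ) (S : Set E) : Set E := sc E c (VS S) • S

theorem nrm_range {ι : Type*} (c : ℝ) (x : ι → E) :
    nrm c (range x) = range (sc E c (V x) • x) := by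
  rw [range_smul']; rfl

theorem V_nrm {ι : Type*} (hd : Module.finrank ℝ E ≠ 0) {c : ℝ} (hc : 0 < c) {x : ι → E}
    (hx : 0 < V x) : V (sc E c (V x) • x) = c := by
  rw [V_smul _ (sc_pos hc hx).le, sc_pow hd hc hx]
  field_simp

theorem nrm_smul (hd : Module.finrank ℝ E ≠ 0) {c r : ℝ} (hc : 0 < c) (hr : 0 < r) {S : Set E}
    (hS : 0 < VS S) : nrm c (r • S) = nrm c S := by
  unfold nrm
  rw [VS_smul r hr.le, smul_smul, sc_mul hd hc hS hr]

/-- equivalence up to scaling -/
def Sim (c : ℝ) (J : Set ℝ) (S T : Set E) : Prop := Rel J (nrm c S) (nrm c T)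

theorem Sim.refl {c : ℝ} {J : Set ℝ} (S : Set E) : Sim c J S S := Relation.EqvGen.refl _

theorem Sim.symm {c : ℝ} {J : Set ℝ} {S T : Set E} (h : Sim c J S T) : Sim c J T S :=
  Relation.EqvGen.symm _ _ h

theorem Sim.trans {c : ℝ} {J : Set ℝ} {S T U : Set E} (h : Sim c J S T) (h' : Sim c J T U) :
    Sim c J S U :=
  Relation.EqvGen.trans _ _ _ h h'

theorem continuousOn_sc {ι : Type*} [Finite ι] {c : ℝ} (hc : 0 < c) :
    ContinuousOn (fun x : ι → E => sc E c (V x)) {x | 0 < V x} := by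
  have : Fintype ι := Fintype.ofFinite ι
  unfold sc
  intro x hx
  have hx : 0 < V x := hx
  apply ContinuousAt.continuousWithinAt
  apply ContinuousAt.rpow_const
  · exact continuousAt_const.div continuous_V.continuousAt hx.ne'
  · left
    exact (div_pos hc hx).ne'

theorem sim_of_preconnected {ι : Type*} [Finite ι] (hd : 2 ≤ Module.finrank ℝ E) {c : ℝ}
    (hc : 0 < c) {J : Set ℝ} (hJ : IsOpen J) (hcJ : c ∈ J) {A : Set (ι → E)}
    (hA : IsPreconnected A) (hval : ∀ x ∈ A, ConvexIndependent ℝ x ∧ 0 < V x) {x y : ι → E}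
    (hx : x ∈ A) (hy : y ∈ A) : Sim c J (range x) (range y) := by
  have h1 : ContinuousOn (fun x : ι → E => sc E c (V x) • x) A :=
    ((continuousOn_sc hc).mono (fun x hx => (hval x hx).2)).smul continuousOn_id
  have h2 := hA.image _ h1
  unfold Sim
  rw [nrm_range, nrm_range]
  apply rel_of_preconnected hd hJ h2 _ (mem_image_of_mem _ hx) (mem_image_of_mem _ hy)
  rintro _ ⟨z, hz, rfl⟩
  refine ⟨cf_smul (sc_pos hc (hval z hz).2).ne' (hval z hz).1, ?_⟩
  dsimp only
  rw [V_nrm (by omega) hc (hval z hz).2]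
  exact hcJ

theorem rel_nrm (hd : 2 ≤ Module.finrank ℝ E) {c : ℝ}
    (hc : 0 < c) {J : Set ℝ} (hJ : IsOpen J) (hJ0 : ∀ v ∈ J, 0 < v) (hJc : OrdConnected J)
    (hcJ : c ∈ J) {S : Set E} (hS : Val J S) : Rel J S (nrm c S) := by
  have hfin : Finite S := hS.1
  set x : S → E := (↑) with hx
  have hrx : range x = S := Subtype.range_coe
  have hVx : V x = VS S := by rw [V_eq, hrx]
  have hv : 0 < V x := hJ0 _ (by rw [hVx]; exact hS.2.2)
  set s := sc E c (V x) with hs
  have hspos : 0 < s := sc_pos hc hv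
  have hVs : V (s • x) = c := V_nrm (by omega) hc hv
  set A : Set (S → E) := (fun r : ℝ => r • x) '' (uIcc 1 s) with hA
  have hApre : IsPreconnected A :=
    isPreconnected_uIcc.image _ (by fun_prop)
  have h1 : x ∈ A := ⟨1, left_mem_uIcc, one_smul _ _⟩
  have h2 : s • x ∈ A := ⟨s, right_mem_uIcc, rfl⟩
  have h3 := rel_of_preconnected hd hJ hApre ?_ h1 h2
  · rw [hrx, range_smul', hrx] at h3
    have h4 : nrm c S = s • S := by
      unfold nrm; rw [← hVx]
    rw [h4]
    exact h3
  · rintro _ ⟨r, hr, rfl⟩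
    have hr0 : 0 < r := by
      rcases mem_uIcc.1 hr with h | h
      · linarith [h.1]
      · linarith [h.1]
    refine ⟨cf_smul hr0.ne' hS.2.1, ?_⟩
    have hVr : V (r • x) = r ^ Module.finrank ℝ E * V x := V_smul r hr0.le x
    have hVs' : s ^ Module.finrank ℝ E * V x = c := by rw [← hVs, V_smul s hspos.le x]
    have hVJ : V x ∈ J := by rw [hVx]; exact hS.2.2
    dsimp only
    rw [hVr]
    apply hJc.uIcc_subset hVJ hcJ
    rw [mem_uIcc]
    rcases mem_uIcc.1 hr with h | h
    · left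
      constructor
      · have : 1 ≤ r ^ Module.finrank ℝ E := one_le_pow₀ h.1
        nlinarith
      · rw [← hVs']
        exact mul_le_mul_of_nonneg_right (pow_le_pow_left₀ hr0.le h.2 _) hv.le
    · right
      constructor
      · rw [← hVs']
        exact mul_le_mul_of_nonneg_right (pow_le_pow_left₀ hspos.le h.1 _) hv.le
      · have : r ^ Module.finrank ℝ E ≤ 1 := pow_le_one₀ hr0.le h.2
        nlinarith

end Pool.Agent.R176.PM
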