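import Pool.Agent.R176.PM.Delete

/-! # Polytope moves: simplices -/

namespace Pool.Agent.R176.PM

open Set Filter Topology MeasureTheory Function
open scoped Pointwise

set_option linter.unusedSectionVars false
set_option linter.unusedVariables false
set_option maxHeartbeats 4000000

variable {E : Type*} [NormedAddCommGroup E] [InnerProductSpace ℝ E] [FiniteDimensional ℝ E]

theorem cf_of_affine {ι : Type*} {x : ι → E} (h : AffineIndependent ℝ x) :
    ConvexIndependent ℝ x := by
  rw [convexIndependent_iff_notMem_convexHull_sdiff]
  intro i s hcon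
  exact h.notMem_affineSpan_sdiff i s (convexHull_subset_affineSpan _ hcon)

theorem ai_iff {ι : Type*} [Fintype ι] (x : ι → E) : AffineIndependent ℝ x ↔
    ∀ w : ι → ℝ, ∑ i, w i = 0 → ∑ i, w i • x i = 0 → ∀ i, w i = 0 := by
  rw [affineIndependent_iff_of_fintype]
  constructor
  · intro h w h0 h1
    apply h w h0
    rw [Finset.univ.weightedVSub_eq_linear_combination h0]
    exact h1
  · intro h w h0 h1
    rw [Finset.univ.weightedVSub_eq_linear_combination h0] at h1
    exact h w h0 h1

/-- replacing a vertex of an affine basis by a point off the opposite facet -/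
theorem affine_update {ι : Type*} [Fintype ι] [DecidableEq ι] (b : AffineBasis ι ℝ E) (i : ι)
    (v : E) (hv : b.coord i v ≠ 0) : AffineIndependent ℝ (update b i v) := by
  rw [ai_iff]
  intro w hw0 hw
  -- apply the coordinate
  have h1 : ∀ p : E, b.coord i p = (b.coord i).linear p + b.coord i 0 := by
    intro p
    have := (b.coord i).map_vadd 0 p
    simpa using this
  have h2 : ∑ j, w j * b.coord i (update b i v j) = 0 := by
    have : ∑ j, w j * b.coord i (update b i v j) =
        (b.coord i).linear (∑ j, w j • update b i v j) + (∑ j, w j) * b.coord i 0 := by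
      rw [map_sum, Finset.sum_mul, ← Finset.sum_add_distrib]
      apply Finset.sum_congr rfl
      intro j _
      rw [h1, map_smul, smul_eq_mul, mul_add]
    rw [this, hw, hw0]
    simp
  have h3 : w i = 0 := by
    rw [Finset.sum_eq_single i] at h2
    · rw [update_self] at h2
      exact (mul_eq_zero.1 h2).resolve_right hv
    · intro j _ hj
      rw [update_of_ne hj, b.coord_apply_ne (Ne.symm hj), mul_zero]
    · intro h; exact absurd (Finset.mem_univ _) h
  have h4 : ∑ j, w j • b j = 0 := by
    rw [← hw]
    apply Finset.sum_congr rfl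
    intro j _
    by_cases hj : j = i
    · rw [hj, h3, zero_smul, zero_smul]
    · rw [update_of_ne hj]
  exact (ai_iff b).1 b.ind w hw0 h4

/-- a bipyramid is convex independent -/
theorem cf_bipyramid {ι : Type*} [Fintype ι] [DecidableEq ι] (hcard : 3 ≤ Fintype.card ι)
    {x : ι → E} (hx : AffineIndependent ℝ x) (i : ι) (v : E)
    (hv : v + x i = (2 / ((Fintype.card ι : ℝ) - 1)) • ∑ j ∈ Finset.univ.erase i, x j) :
    ConvexIndependent ℝ (O x v) := by
  have hn : (0 : ℝ) < (Fintype.card ι : ℝ) - 1 := by
    have : (3 : ℝ) ≤ Fintype.card ι := by exact_mod_cast hcard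
    linarith
  -- every affine relation is a multiple of the bipyramid relation
  have key : ∀ u : Option ι → ℝ, ∑ o, u o = 0 → ∑ o, u o • O x v o = 0 →
      u (some i) = u none ∧ ∀ j, j ≠ i → u (some j) = -(2 / ((Fintype.card ι : ℝ) - 1)) * u none := by
    intro u hu0 hu
    rw [Fintype.sum_option] at hu0 hu
    have hv' : v = (2 / ((Fintype.card ι : ℝ) - 1)) • ∑ j ∈ Finset.univ.erase i, x j - x i := by
      rw [← hv]; abel
    set κ := (2 / ((Fintype.card ι : ℝ) - 1)) with hκ
    let w : ι → ℝ := fun j => if j = i then u (some i) - u none else u (some j) + κ * u none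
    have hcardE : ((Finset.univ.erase i).card : ℝ) = (Fintype.card ι : ℝ) - 1 := by
      rw [Finset.card_erase_of_mem (Finset.mem_univ _), Finset.card_univ, Nat.cast_sub (by omega)]
      simp
    have hw0 : ∑ j, w j = 0 := by
      rw [← Finset.add_sum_erase _ _ (Finset.mem_univ i)]
      have e1 : ∑ j ∈ Finset.univ.erase i, w j =
          ∑ j ∈ Finset.univ.erase i, (u (some j) + κ * u none) := by
        apply Finset.sum_congr rfl
        intro j hj
        simp only [w, if_neg (Finset.ne_of_mem_erase hj)]
      rw [e1, Finset.sum_add_distrib, Finset.sum_const, nsmul_eq_mul, hcardE]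
      simp only [w, if_true]
      rw [← Finset.add_sum_erase _ _ (Finset.mem_univ i)] at hu0
      have : ((Fintype.card ι : ℝ) - 1) * (κ * u none) = 2 * u none := by
        rw [hκ]; field_simp
      rw [this]
      linarith
    have hw : ∑ j, w j • x j = 0 := by
      rw [← Finset.add_sum_erase _ _ (Finset.mem_univ i)]
      have e1 : ∑ j ∈ Finset.univ.erase i, w j • x j =
          ∑ j ∈ Finset.univ.erase i, (u (some j) • x j + (u none) • (κ • x j)) := by
        apply Finset.sum_congr rfl
        intro j hj
        simp only [w, if_neg (Finset.ne_of_mem_erase hj)]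
        rw [add_smul, mul_comm, mul_smul]
      rw [e1, Finset.sum_add_distrib, ← Finset.smul_sum, ← Finset.smul_sum]
      simp only [w, if_true]
      rw [← Finset.add_sum_erase _ _ (Finset.mem_univ i)] at hu
      have hO : O x v none = v := rfl
      have hOs : ∀ j, O x v (some j) = x j := fun _ => rfl
      simp only [hO, hOs] at hu
      rw [hv'] at hu
      rw [← hu]
      module
    have h5 := (ai_iff x).1 hx w hw0 hw
    constructor
    · have := h5 i
      simp only [w, if_true] at this
      linarith
    · intro j hj
      have := h5 j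
      simp only [w, if_neg hj] at this
      linarith
  have hκpos : 0 < 2 / ((Fintype.card ι : ℝ) - 1) := by positivity
  rw [cf_iff]
  intro o hcon
  obtain ⟨w, hw, hsum⟩ := (mem_hull_range _ _).1 hcon
  -- turn it into a relation
  let u : Option ι → ℝ := fun k => if h : k ≠ o then w ⟨k, h⟩ else -1
  have hu0 : ∑ k, u k = 0 := by
    rw [Fintype.sum_eq_add_sum_subtype_ne u o]
    have e1 : ∑ k : {k // k ≠ o}, u k = 1 := by
      rw [← hw.2]
      apply Finset.sum_congr rfl
      rintro ⟨k, hk⟩ _
      simp [u, hk]
    rw [e1]
    simp [u]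
  have hu : ∑ k, u k • O x v k = 0 := by
    rw [Fintype.sum_eq_add_sum_subtype_ne (fun k => u k • O x v k) o]
    have e1 : ∑ k : {k // k ≠ o}, u k • O x v k = O x v o := by
      rw [← hsum]
      apply Finset.sum_congr rfl
      rintro ⟨k, hk⟩ _
      simp [u, hk]
    rw [e1]
    simp [u]
  obtain ⟨k1, k2⟩ := key u hu0 hu
  have huo : u o = -1 := by simp [u]
  have hupos : ∀ k, k ≠ o → 0 ≤ u k := by
    intro k hk
    simp only [u, dif_pos hk]
    exact hw.1 _
  cases o with
  | none =>
    have := hupos (some i) (by simp)
    rw [k1, huo] at this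
    linarith
  | some j =>
    by_cases hj : j = i
    · subst hj
      have := hupos none (by simp)
      rw [← k1, huo] at this
      linarith
    · -- find a third index
      obtain ⟨k, hk⟩ : ∃ k, k ∉ ({i, j} : Finset ι) := by
        by_contra hcon
        push Not at hcon
        have h1 : (Finset.univ : Finset ι) ⊆ {i, j} := fun k _ => hcon k
        have h2 := Finset.card_le_card h1
        have h3 := Finset.card_le_two (a := i) (b := j)
        rw [Finset.card_univ] at h2
        omega
      simp only [Finset.mem_insert, Finset.mem_singleton, not_or] at hk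
      have h1 := k2 j hj
      have h2 := k2 k hk.1
      have h3 := hupos (some k) (by simpa using hk.2)
      rw [h2, ← h1, huo] at h3
      linarith

end Pool.Agent.R176.PM
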